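import Pool.Agent.L0h5.T8.Stm
import Pool.Agent.W29.RT.LOW4
import Pool.Agent.W376.RTL.Low6

/-!
# LOW28: there are many curves with a subgroup `Z/2 x Z/8`
-/

set_option autoImplicit false

namespace Pool.Agent.L0h80.T8

open Finset Pool.Agent.W262.RK Pool.Agent.W307.RT WeierstrassCurve Pool.Agent.L0h5.T8
open Pool.Agent.W29.RT (nons neg_y)

/-- doubling a point -/
lemma dbl_pt {A B : ℤ} {x y l X Y : ℚ} (h : (Sh A B).toAffine.Nonsingular x y)
    (h' : (Sh A B).toAffine.Nonsingular X Y) (hy : y ≠ 0) (hl : 2 * l * y = 3 * x ^ 2 + A)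
    (hX : X = l ^ 2 - 2 * x) (hY : Y = l * (x - X) - y) :
    (Affine.Point.some x y h + Affine.Point.some x y h : (Sh A B).toAffine.Point) =
      Affine.Point.some X Y h' := by
  have hne : y ≠ (Sh A B).toAffine.negY x y := by
    rw [neg_y]
    intro h
    apply hy
    linarith
  have hsl : (Sh A B).toAffine.slope x x y y = l := by
    rw [Affine.slope_of_Y_ne rfl hne, neg_y]
    simp only [Sh]
    rw [div_eq_iff (by intro h; apply hy; linarith)]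
    linear_combination -hl
  rw [Affine.Point.add_self_of_Y_ne hne, Affine.Point.some.injEq, hsl]
  constructor
  · simp only [Affine.addX, Sh]; linear_combination -hX
  · simp only [Affine.addY, Affine.negAddY, Affine.negY, Affine.addX, Sh]
    rw [hY, hX]; ring

/-- the coefficients -/
def A8 (m n : ℤ) : ℤ := -27 * (m ^ 2 - m * n + n ^ 2)

/-- the coefficients -/
def B8 (m n : ℤ) : ℤ := 27 * ((m + n) * ((2 * m - n) * (m - 2 * n)))

lemma hasT8 {A B : ℤ} {p q r : ℚ} (hp : 0 < p) (hq : p < q) (hr : 0 < r)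
    (hpq : p ^ 2 + q ^ 2 = r ^ 2)
    (hA : (A : ℚ) = -27 * ((p ^ 4) ^ 2 - p ^ 4 * q ^ 4 + (q ^ 4) ^ 2))
    (hB : (B : ℚ) = 27 * ((p ^ 4 + q ^ 4) * ((2 * p ^ 4 - q ^ 4) * (p ^ 4 - 2 * q ^ 4)))) :
    HasT 8 (Sh A B) := by
  have hq0 : 0 < q := hp.trans hq
  -- the cubic
  have cub : ∀ x : ℚ, x ^ 3 + A * x + B = (x - 3 * (p ^ 4 + q ^ 4)) *
      (x - 3 * (q ^ 4 - 2 * p ^ 4)) * (x - 3 * (p ^ 4 - 2 * q ^ 4)) := by
    intro x
    rw [hA, hB]; ring
  have der : ∀ x : ℚ, 3 * x ^ 2 + A = (x - 3 * (p ^ 4 + q ^ 4)) * (x - 3 * (q ^ 4 - 2 * p ^ 4)) +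
      (x - 3 * (p ^ 4 + q ^ 4)) * (x - 3 * (p ^ 4 - 2 * q ^ 4)) +
      (x - 3 * (q ^ 4 - 2 * p ^ 4)) * (x - 3 * (p ^ 4 - 2 * q ^ 4)) := by
    intro x
    rw [hA]; ring
  -- the abscissas
  obtain ⟨x, hx⟩ : ∃ x : ℚ, x = 3 * (p ^ 4 + q ^ 4) + 9 * p ^ 2 * q ^ 2 +
    9 * (p * q * r) * (p + q + r) := ⟨_, rfl⟩
  obtain ⟨y, hy⟩ : ∃ y : ℚ, y = 27 * (p * q * r) * ((q + r) * (p + r) * (p + q)) := ⟨_, rfl⟩
  obtain ⟨X, hX⟩ : ∃ X : ℚ, X = 3 * (p ^ 4 + q ^ 4) + 9 * p ^ 2 * q ^ 2 := ⟨_, rfl⟩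
  obtain ⟨Y, hY⟩ : ∃ Y : ℚ, Y = 27 * p ^ 2 * q ^ 2 * (p ^ 2 + q ^ 2) := ⟨_, rfl⟩
  have hyP : y ≠ 0 := by rw [hy]; positivity
  have hyS : Y ≠ 0 := by rw [hY]; positivity
  have d1 : x - 3 * (p ^ 4 + q ^ 4) = 9 * (p * q) * ((q + r) * (p + r)) := by
    rw [hx]; ring
  have d2 : x - 3 * (q ^ 4 - 2 * p ^ 4) = 9 * (p * r) * ((p + q) * (q + r)) := by
    rw [hx]; linear_combination (9 * p ^ 2) * hpq
  have d3 : x - 3 * (p ^ 4 - 2 * q ^ 4) = 9 * (q * r) * ((p + q) * (p + r)) := by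
    rw [hx]; linear_combination (9 * q ^ 2) * hpq
  have hP : (Sh A B).toAffine.Nonsingular x y := by
    apply nons _ (Or.inl hyP)
    rw [cub, d1, d2, d3, hy]; ring
  have hS : (Sh A B).toAffine.Nonsingular X Y := by
    apply nons _ (Or.inl hyS)
    rw [cub, hX, hY]; ring
  have hR : (Sh A B).toAffine.Nonsingular (3 * (p ^ 4 + q ^ 4)) 0 := by
    apply nons _ (Or.inr _)
    · rw [cub]; ring
    · rw [der]
      have : (3 * (p ^ 4 + q ^ 4) - 3 * (p ^ 4 + q ^ 4)) * (3 * (p ^ 4 + q ^ 4) -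
        3 * (q ^ 4 - 2 * p ^ 4)) + (3 * (p ^ 4 + q ^ 4) - 3 * (p ^ 4 + q ^ 4)) *
        (3 * (p ^ 4 + q ^ 4) - 3 * (p ^ 4 - 2 * q ^ 4)) + (3 * (p ^ 4 + q ^ 4) -
        3 * (q ^ 4 - 2 * p ^ 4)) * (3 * (p ^ 4 + q ^ 4) - 3 * (p ^ 4 - 2 * q ^ 4)) =
        81 * p ^ 4 * q ^ 4 := by ring
      rw [this]; positivity
  have hpq4 : p ^ 4 < q ^ 4 := pow_lt_pow_left₀ hq hp.le (by norm_num)
  have hQ : (Sh A B).toAffine.Nonsingular (3 * (q ^ 4 - 2 * p ^ 4)) 0 := by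
    apply nons _ (Or.inr _)
    · rw [cub]; ring
    · rw [der]
      have : (3 * (q ^ 4 - 2 * p ^ 4) - 3 * (p ^ 4 + q ^ 4)) * (3 * (q ^ 4 - 2 * p ^ 4) -
        3 * (q ^ 4 - 2 * p ^ 4)) + (3 * (q ^ 4 - 2 * p ^ 4) - 3 * (p ^ 4 + q ^ 4)) *
        (3 * (q ^ 4 - 2 * p ^ 4) - 3 * (p ^ 4 - 2 * q ^ 4)) + (3 * (q ^ 4 - 2 * p ^ 4) -
        3 * (q ^ 4 - 2 * p ^ 4)) * (3 * (q ^ 4 - 2 * p ^ 4) - 3 * (p ^ 4 - 2 * q ^ 4)) =
        -(81 * p ^ 4 * (q ^ 4 - p ^ 4)) := by ring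
      rw [this, neg_ne_zero]
      have h1 : 0 < q ^ 4 - p ^ 4 := by linarith
      positivity
  set P : (Sh A B).toAffine.Point := .some _ _ hP with hPd
  set S : (Sh A B).toAffine.Point := .some _ _ hS with hSd
  set R : (Sh A B).toAffine.Point := .some _ _ hR with hRd
  set Q : (Sh A B).toAffine.Point := .some _ _ hQ with hQd
  have hRR : R + R = 0 := by
    rw [hRd]
    apply Affine.Point.add_self_of_Y_eq
    rw [neg_y]; simp
  have hQQ : Q + Q = 0 := by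
    rw [hQd]
    apply Affine.Point.add_self_of_Y_eq
    rw [neg_y]; simp
  have hSS : S + S = R := by
    refine dbl_pt (l := 3 * (p ^ 2 + q ^ 2)) hS hR hyS ?_ ?_ ?_
    · rw [der, hX, hY]; ring
    · rw [hX]; ring
    · rw [hX, hY]; ring
  have hPP : P + P = S := by
    refine dbl_pt (l := 3 * (p * q + p * r + q * r)) hP hS hyP ?_ ?_ ?_
    · rw [der, d1, d2, d3, hy]; ring
    · rw [hX, hx]
      linear_combination (9 * (p ^ 2 + q ^ 2)) * hpq
    · rw [hX, hx, hy, hY]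
      linear_combination (27 * p ^ 2 * q ^ 2) * hpq
  have hR0 : R ≠ 0 := Affine.Point.some_ne_zero hR
  have hQ0 : Q ≠ 0 := Affine.Point.some_ne_zero hQ
  have hRQ : R ≠ Q := by
    rw [hRd, hQd, Ne, Affine.Point.some.injEq]
    rintro ⟨h, -⟩
    have : 0 < p ^ 4 := by positivity
    linarith
  have h4P : 4 • P = R := by
    have : (4 : ℕ) • P = 2 • (2 • P) := by rw [← mul_nsmul]
    rw [this, two_nsmul P, hPP, two_nsmul, hSS]
  have h8P : 8 • P = 0 := by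
    have : (8 : ℕ) • P = 2 • (4 • P) := by rw [← mul_nsmul]
    rw [this, h4P, two_nsmul, hRR]
  have hoP : addOrderOf P = 8 := by
    have := addOrderOf_eq_prime_pow (x := P) (p := 2) (n := 2) (by
      norm_num
      rw [h4P]; exact hR0) (by norm_num; exact h8P)
    simpa using this
  have hoQ : addOrderOf Q = 2 := by
    apply addOrderOf_eq_prime
    · rw [two_nsmul, hQQ]
    · exact hQ0
  refine ⟨P, Q, hoP, hoQ, ?_⟩
  intro hmem
  obtain ⟨k, hk⟩ := AddSubgroup.mem_zmultiples_iff.1 hmem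
  have h4 : ((addOrderOf P : ℕ) : ℤ) ∣ 2 * k := by
    rw [addOrderOf_dvd_iff_zsmul_eq_zero, mul_zsmul, hk, two_zsmul, hQQ]
  rw [hoP] at h4
  obtain ⟨j, hj⟩ : ∃ j, k = 4 * j := by
    obtain ⟨l, hl⟩ := h4
    exact ⟨l, by push_cast at hl; linarith⟩
  have hkj : k • P = j • R := by
    rw [hj, mul_comm, mul_zsmul, ← h4P]
    norm_cast
  rcases Int.even_or_odd j with ⟨i, hi⟩ | ⟨i, hi⟩
  · apply hQ0
    rw [← hk, hkj, hi, ← two_mul, mul_comm, mul_zsmul, two_zsmul, hRR, zsmul_zero]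
  · apply hRQ
    rw [← hk, hkj, hi, add_zsmul, one_zsmul, mul_comm, mul_zsmul, two_zsmul, hRR, zsmul_zero,
      zero_add]

/-- minimality -/
lemma minim8 {m n : ℤ} (hc : IsCoprime m n) (h3 : ¬ (3 : ℤ) ∣ m ^ 2 - m * n + n ^ 2) (p : ℕ)
    (hp : p.Prime) : ¬ ((p : ℤ) ^ 4 ∣ A8 m n ∧ (p : ℤ) ^ 6 ∣ B8 m n) := by
  rintro ⟨hA, hB⟩
  have hpI : Prime (p : ℤ) := Nat.prime_iff_prime_int.1 hp
  unfold A8 at hA
  unfold B8 at hB
  by_cases hp3 : p = 3
  · subst hp3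
    apply h3
    have h1 : (3 : ℤ) ^ 3 * 3 ∣ (3 : ℤ) ^ 3 * (-(m ^ 2 - m * n + n ^ 2)) := by
      have e : (3 : ℤ) ^ 3 * (-(m ^ 2 - m * n + n ^ 2)) = -27 * (m ^ 2 - m * n + n ^ 2) := by
        ring
      rw [e]
      have : ((3 : ℕ) : ℤ) ^ 4 = (3 : ℤ) ^ 3 * 3 := by norm_num
      rw [← this]
      exact hA
    have h2 := Int.dvd_of_mul_dvd_mul_left (by norm_num) h1
    exact (Int.dvd_neg).1 h2
  · have hp3' : ¬ (p : ℤ) ∣ 27 := by
      intro h
      have h1 : (p : ℤ) ∣ 3 ^ 3 := by norm_num; exact h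
      have h2 := hpI.dvd_of_dvd_pow h1
      have h3 : p ∣ 3 := by exact_mod_cast h2
      rcases (Nat.dvd_prime Nat.prime_three).1 h3 with h4 | h4
      · exact hp.one_lt.ne' h4
      · exact hp3 h4
    have hp3'' : ¬ (p : ℤ) ∣ 3 := fun h => hp3' (h.trans (by norm_num))
    have hq : (p : ℤ) ∣ m ^ 2 - m * n + n ^ 2 := by
      have h1 : (p : ℤ) ∣ -27 * (m ^ 2 - m * n + n ^ 2) := (dvd_pow_self _ (by norm_num)).trans hA
      rcases hpI.dvd_or_dvd h1 with h | h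
      · exfalso
        exact hp3' ((Int.dvd_neg).1 h)
      · exact h
    have h1 : (p : ℤ) ∣ 27 * ((m + n) * ((2 * m - n) * (m - 2 * n))) :=
      (dvd_pow_self _ (by norm_num)).trans hB
    have hnot : ¬ ((p : ℤ) ∣ m ∧ (p : ℤ) ∣ n) := by
      rintro ⟨h1, h2⟩
      exact hpI.not_isUnit (hc.isUnit_of_dvd' h1 h2)
    have hmn : (p : ℤ) ∣ 3 * m ^ 2 ∨ (p : ℤ) ∣ 3 * n ^ 2 := by
      rcases hpI.dvd_or_dvd h1 with h | h
      · exact absurd h hp3'
      rcases hpI.dvd_or_dvd h with h | h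
      · left
        have := dvd_add hq (Dvd.dvd.mul_left h (2 * m - n))
        have e : m ^ 2 - m * n + n ^ 2 + (2 * m - n) * (m + n) = 3 * m ^ 2 := by ring
        rwa [e] at this
      rcases hpI.dvd_or_dvd h with h | h
      · left
        have := dvd_add hq (Dvd.dvd.mul_left h (m + n))
        have e : m ^ 2 - m * n + n ^ 2 + (m + n) * (2 * m - n) = 3 * m ^ 2 := by ring
        rwa [e] at this
      · right
        have := dvd_sub hq (Dvd.dvd.mul_left h (m + n))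
        have e : m ^ 2 - m * n + n ^ 2 - (m + n) * (m - 2 * n) = 3 * n ^ 2 := by ring
        rwa [e] at this
    apply hnot
    rcases hmn with h | h
    · have hm := hpI.dvd_of_dvd_pow ((hpI.dvd_or_dvd h).resolve_left hp3'')
      refine ⟨hm, hpI.dvd_of_dvd_pow (n := 2) ?_⟩
      have := dvd_sub hq (Dvd.dvd.mul_right hm (m - n))
      have e : m ^ 2 - m * n + n ^ 2 - m * (m - n) = n ^ 2 := by ring
      rwa [e] at this
    · have hm := hpI.dvd_of_dvd_pow ((hpI.dvd_or_dvd h).resolve_left hp3'')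
      refine ⟨hpI.dvd_of_dvd_pow (n := 2) ?_, hm⟩
      have := dvd_sub hq (Dvd.dvd.mul_right hm (n - m))
      have e : m ^ 2 - m * n + n ^ 2 - n * (n - m) = m ^ 2 := by ring
      rwa [e] at this

lemma cop28 {u v : ℤ} (h : IsCoprime u v) (h2 : (2 : ℤ) ∣ v) :
    IsCoprime (M28 u v) (N28 u v) := by
  have h1 : IsCoprime u (u ^ 2 - v ^ 2) := by
    have h2 : IsCoprime u (v ^ 2) := h.pow_right
    have h3 : u ^ 2 - v ^ 2 = -v ^ 2 + u * u := by ring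
    rw [h3, IsCoprime.add_mul_left_right_iff, IsCoprime.neg_right_iff]
    exact h2
  have h3 : IsCoprime v (u ^ 2 - v ^ 2) := by
    have h2 : IsCoprime v (u ^ 2) := h.symm.pow_right
    have h3 : u ^ 2 - v ^ 2 = u ^ 2 + v * (-v) := by ring
    rw [h3, IsCoprime.add_mul_left_right_iff]
    exact h2
  have h4 : IsCoprime 2 (u ^ 2 - v ^ 2) := h3.of_isCoprime_of_dvd_left h2
  have h5 := ((IsCoprime.mul_left h4 (IsCoprime.mul_left h1 h3)).pow (m := 4) (n := 4))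
  have e : M28 u v = (2 * (u * v)) ^ 4 := by unfold M28; ring
  rw [e]
  exact h5

lemma three28 {u v : ℤ} (h : IsCoprime u v) (h3 : (3 : ℤ) ∣ v) :
    ¬ (3 : ℤ) ∣ M28 u v ^ 2 - M28 u v * N28 u v + N28 u v ^ 2 := by
  intro hd
  have hp : Prime (3 : ℤ) := Int.prime_three
  have hM : (3 : ℤ) ∣ M28 u v := by
    unfold M28
    exact Dvd.dvd.mul_left (dvd_pow h3 (by norm_num)) _
  have hN : (3 : ℤ) ∣ N28 u v ^ 2 := by
    have := dvd_sub hd (Dvd.dvd.mul_right hM (M28 u v - N28 u v))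
    have e : M28 u v ^ 2 - M28 u v * N28 u v + N28 u v ^ 2 - M28 u v * (M28 u v - N28 u v) =
      N28 u v ^ 2 := by ring
    rwa [e] at this
  have hN' := hp.dvd_of_dvd_pow hN
  unfold N28 at hN'
  have h1 := hp.dvd_of_dvd_pow hN'
  have h2 : (3 : ℤ) ∣ u ^ 2 := by
    have := dvd_add h1 (dvd_pow h3 (n := 2) (by norm_num))
    have e : u ^ 2 - v ^ 2 + v ^ 2 = u ^ 2 := by ring
    rwa [e] at this
  exact hp.not_isUnit (h.isUnit_of_dvd' (hp.dvd_of_dvd_pow h2) h3)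

lemma pos28 {u v : ℤ} (hv : 0 < v) (huv : 3 * v < u) :
    0 < 2 * u * v ∧ 2 * u * v < u ^ 2 - v ^ 2 ∧ 0 < M28 u v ∧ M28 u v < N28 u v := by
  have hu : 0 < u := by linarith
  have h1 : 0 < 2 * u * v := by positivity
  have h2 : 2 * u * v < u ^ 2 - v ^ 2 := by nlinarith
  refine ⟨h1, h2, ?_, ?_⟩
  · unfold M28; positivity
  · have e : M28 u v = (2 * u * v) ^ 4 := by unfold M28; ring
    rw [e]
    unfold N28
    exact pow_lt_pow_left₀ h2 h1.le (by norm_num)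

lemma inj28 {u v u' v' : ℤ} (hv : 0 < v) (huv : 3 * v < u) (hv' : 0 < v') (huv' : 3 * v' < u')
    (hA : A8 (M28 u v) (N28 u v) = A8 (M28 u' v') (N28 u' v'))
    (hB : B8 (M28 u v) (N28 u v) = B8 (M28 u' v') (N28 u' v')) : u = u' ∧ v = v' := by
  obtain ⟨p1, p2, p3, p4⟩ := pos28 hv huv
  obtain ⟨q1, q2, q3, q4⟩ := pos28 hv' huv'
  obtain ⟨h1, h2⟩ := Pool.Agent.W376.RTL.roots_inj p3 p4 q3 q4
    (by unfold A8 at hA; linarith) (by unfold B8 at hB; linarith)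
  have e : ∀ u v : ℤ, M28 u v = (2 * u * v) ^ 4 := by intro u v; unfold M28; ring
  rw [e, e] at h2
  unfold N28 at h1
  have h3 : 2 * u * v = 2 * u' * v' := (pow_left_inj₀ p1.le q1.le (by norm_num)).1 h2
  have h4 : u ^ 2 - v ^ 2 = u' ^ 2 - v' ^ 2 :=
    (pow_left_inj₀ (by linarith) (by linarith) (by norm_num)).1 h1
  have hu : 0 < u := by linarith
  have hu' : 0 < u' := by linarith
  have h5 : (u ^ 2 + v ^ 2) ^ 2 = (u' ^ 2 + v' ^ 2) ^ 2 := by
    have a1 : (u ^ 2 + v ^ 2) ^ 2 = (u ^ 2 - v ^ 2) ^ 2 + (2 * u * v) ^ 2 := by ring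
    have a2 : (u' ^ 2 + v' ^ 2) ^ 2 = (u' ^ 2 - v' ^ 2) ^ 2 + (2 * u' * v') ^ 2 := by ring
    rw [a1, a2, h3, h4]
  have h6 : u ^ 2 + v ^ 2 = u' ^ 2 + v' ^ 2 :=
    (pow_left_inj₀ (by positivity) (by positivity) (by norm_num)).1 h5
  have s1 : u ^ 2 = u' ^ 2 := by linarith
  have s2 : v ^ 2 = v' ^ 2 := by linarith
  exact ⟨(pow_left_inj₀ (by linarith) (by linarith) two_ne_zero).1 s1,
    (pow_left_inj₀ (by linarith) (by linarith) two_ne_zero).1 s2⟩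

lemma height28 {u v T : ℤ} (hv : 0 < v) (huv : 3 * v < u) (hT : u ≤ T) :
    4 * |A8 (M28 u v) (N28 u v)| ^ 3 ≤ 314928 * T ^ 48 ∧
      27 * B8 (M28 u v) (N28 u v) ^ 2 ≤ 314928 * T ^ 48 := by
  obtain ⟨p1, p2, p3, p4⟩ := pos28 hv huv
  have hu : 0 < u := by linarith
  have hT0 : 0 < T := by linarith
  have hNT : N28 u v ≤ T ^ 8 := by
    unfold N28
    have h1 : u ^ 2 - v ^ 2 ≤ T ^ 2 := by nlinarith
    calc (u ^ 2 - v ^ 2) ^ 4 ≤ (T ^ 2) ^ 4 := pow_le_pow_left₀ (by linarith) h1 4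
      _ = T ^ 8 := by ring
  set m := M28 u v with hm
  set n := N28 u v with hn
  have hA : |A8 m n| ≤ 27 * T ^ 16 := by
    unfold A8
    rw [abs_mul, abs_neg, abs_of_nonneg (show (0 : ℤ) ≤ 27 by norm_num)]
    have h1 : 0 ≤ m ^ 2 - m * n + n ^ 2 := by nlinarith
    rw [abs_of_nonneg h1]
    have h2 : m ^ 2 - m * n + n ^ 2 ≤ n ^ 2 := by nlinarith
    have h3 : n ^ 2 ≤ (T ^ 8) ^ 2 := pow_le_pow_left₀ (p3.trans p4).le hNT 2
    calc 27 * (m ^ 2 - m * n + n ^ 2) ≤ 27 * (T ^ 8) ^ 2 := by linarith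
      _ = 27 * T ^ 16 := by ring
  have hB : |B8 m n| ≤ 108 * T ^ 24 := by
    unfold B8
    rw [abs_mul, abs_mul, abs_mul, abs_of_nonneg (show (0 : ℤ) ≤ 27 by norm_num)]
    have h1 : |m + n| ≤ 2 * n := by rw [abs_le]; constructor <;> linarith
    have h2 : |2 * m - n| ≤ n := by rw [abs_le]; constructor <;> linarith
    have h3 : |m - 2 * n| ≤ 2 * n := by rw [abs_le]; constructor <;> linarith
    have hn0 : 0 < n := p3.trans p4
    calc 27 * (|m + n| * (|2 * m - n| * |m - 2 * n|)) ≤ 27 * ((2 * n) * (n * (2 * n))) := by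
          gcongr
      _ = 108 * n ^ 3 := by ring
      _ ≤ 108 * (T ^ 8) ^ 3 := by gcongr
      _ = 108 * T ^ 24 := by ring
  constructor
  · calc 4 * |A8 m n| ^ 3 ≤ 4 * (27 * T ^ 16) ^ 3 := by gcongr
      _ = 78732 * T ^ 48 := by ring
      _ ≤ 314928 * T ^ 48 := by
        have : 0 ≤ T ^ 48 := by positivity
        linarith
  · calc 27 * B8 m n ^ 2 = 27 * |B8 m n| ^ 2 := by rw [sq_abs]
      _ ≤ 27 * (108 * T ^ 24) ^ 2 := by gcongr
      _ = 314928 * T ^ 48 := by ring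

lemma mem28 {u v T : ℤ} {H : ℕ} (hc : IsCoprime u v) (h6 : (6 : ℤ) ∣ v) (hv : 0 < v)
    (huv : 3 * v < u) (hT : u ≤ T) (hH : 314928 * T ^ 48 ≤ (H : ℤ)) :
    (A8 (M28 u v) (N28 u v), B8 (M28 u v) (N28 u v)) ∈ Cv 8 H := by
  classical
  obtain ⟨p1, p2, p3, p4⟩ := pos28 hv huv
  obtain ⟨g1, g2⟩ := height28 hv huv hT
  have g1' := g1.trans hH
  have g2' := g2.trans hH
  have b1 : |A8 (M28 u v) (N28 u v)| ≤ (H : ℤ) := by
    have h0 := abs_nonneg (A8 (M28 u v) (N28 u v))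
    refine le_trans ?_ g1'
    generalize |A8 (M28 u v) (N28 u v)| = a at *
    rcases h0.eq_or_lt with h | h
    · rw [← h]; norm_num
    · have h1 : 1 ≤ a := h
      have h2 : 1 ≤ a ^ 2 := one_le_pow₀ h1
      nlinarith
  have b2 : |B8 (M28 u v) (N28 u v)| ≤ (H : ℤ) := by
    refine le_trans ?_ g2'
    rw [← sq_abs]
    have h0 := abs_nonneg (B8 (M28 u v) (N28 u v))
    generalize |B8 (M28 u v) (N28 u v)| = a at *
    rcases h0.eq_or_lt with h | h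
    · rw [← h]; norm_num
    · have h1 : 1 ≤ a := h
      nlinarith
  have hdisc : 4 * A8 (M28 u v) (N28 u v) ^ 3 + 27 * B8 (M28 u v) (N28 u v) ^ 2 ≠ 0 := by
    have e : 4 * A8 (M28 u v) (N28 u v) ^ 3 + 27 * B8 (M28 u v) (N28 u v) ^ 2 =
        -(729 * (M28 u v * (N28 u v * (M28 u v - N28 u v)))) ^ 2 := by
      unfold A8 B8; ring
    rw [e, neg_ne_zero]
    apply pow_ne_zero
    have h1 : M28 u v ≠ 0 := p3.ne'
    have h2 : N28 u v ≠ 0 := (p3.trans p4).ne'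
    have h3 : M28 u v - N28 u v ≠ 0 := by
      intro h
      linarith
    positivity
  rw [abs_le] at b1 b2
  unfold Cv
  rw [mem_filter, mem_product, mem_Icc, mem_Icc]
  have huq : (0 : ℚ) < u := by exact_mod_cast (by linarith : (0 : ℤ) < u)
  have hvq : (0 : ℚ) < v := by exact_mod_cast hv
  refine ⟨⟨b1, b2⟩, hdisc, g1', g2', fun p hp => minim8 (cop28 hc ((by norm_num : (2 : ℤ) ∣ 6).trans
    h6)) (three28 hc ((by norm_num : (3 : ℤ) ∣ 6).trans h6)) p hp, ?_⟩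
  refine hasT8 (p := 2 * u * v) (q := u ^ 2 - v ^ 2) (r := u ^ 2 + v ^ 2) (by positivity) ?_
    (by positivity) (by ring) ?_ ?_
  · exact_mod_cast p2
  · unfold A8 M28 N28; push_cast; ring
  · unfold B8 M28 N28; push_cast; ring

/-- the good pairs -/
def GG (K : ℕ) : Finset (ℕ × ℕ) :=
  (Ioc 0 (6 * K) ×ˢ Ioc 0 K).filter (fun t => (6 * t.1 + 1).Coprime t.2 ∧ 3 * K < t.1)

/-- pairs of multiples -/
def BB (K d : ℕ) : Finset (ℕ × ℕ) :=
  (Ioc 0 (6 * K)).filter (fun x => d ∣ 6 * x + 1) ×ˢ (Ioc 0 K).filter (fun x => d ∣ x)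

lemma card_prog (N d : ℕ) (hd : 0 < d) :
    ((Ioc 0 N).filter (fun x => d ∣ 6 * x + 1)).card ≤ N / d + 1 := by
  have h : ((Ioc 0 N).filter (fun x => d ∣ 6 * x + 1)).card ≤ (range (N / d + 1)).card := by
    apply card_le_card_of_injOn (fun x => x / d)
    · intro x hx
      rw [coe_filter, Set.mem_ofPred_eq, mem_Ioc] at hx
      rw [coe_range, Set.mem_Iio]
      exact Nat.lt_succ_of_le (Nat.div_le_div_right hx.1.2)
    · intro x hx y hy h
      rw [coe_filter, Set.mem_ofPred_eq, mem_Ioc] at hx hy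
      have h' : x / d = y / d := h
      have key : ∀ x y : ℕ, x ≤ y → d ∣ 6 * x + 1 → d ∣ 6 * y + 1 → x / d = y / d → x = y := by
        intro x y hxy hx hy h
        have h1 : d ∣ 6 * (y - x) := by
          have := Nat.dvd_sub hy hx
          have e : 6 * y + 1 - (6 * x + 1) = 6 * (y - x) := by omega
          rwa [e] at this
        have h2 : d.Coprime 6 := by
          have : (6 * x + 1).Coprime 6 := by
            rw [Nat.coprime_comm]
            simp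
          exact Nat.Coprime.coprime_dvd_left hx this
        have h3 : d ∣ y - x := h2.dvd_of_dvd_mul_left h1
        have h4 : y - x < d := by
          have e1 := Nat.div_add_mod x d
          have e2 := Nat.div_add_mod y d
          have e3 := Nat.mod_lt y hd
          rw [h] at e1
          omega
        have h5 := Nat.eq_zero_of_dvd_of_lt h3 h4
        omega
      rcases le_total x y with hxy | hxy
      · exact key x y hxy hx.2 hy.2 h'
      · exact (key y x hxy hy.2 hx.2 h'.symm).symm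
  rwa [card_range] at h

lemma card_BB (K d : ℕ) (hd : 5 ≤ d) :
    ((BB K d).card : ℝ) ≤ 6 * (K : ℝ) ^ 2 * (1 / (d : ℝ) ^ 2) + K / 5 := by
  unfold BB
  rw [card_product, Nat.Ioc_filter_dvd_card_eq_div]
  push_cast
  have hd0 : 0 < d := by omega
  have hd' : (0 : ℝ) < d := by exact_mod_cast hd0
  have hd5 : (5 : ℝ) ≤ d := by exact_mod_cast hd
  have h0 : ((((Ioc 0 (6 * K)).filter (fun x => d ∣ 6 * x + 1)).card : ℕ) : ℝ) ≤
      6 * K / d + 1 := by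
    have h1 : ((((Ioc 0 (6 * K)).filter (fun x => d ∣ 6 * x + 1)).card : ℕ) : ℝ) ≤
        ((6 * K / d + 1 : ℕ) : ℝ) := by exact_mod_cast card_prog (6 * K) d hd0
    have h2 := Nat.cast_div_le (α := ℝ) (m := 6 * K) (n := d)
    push_cast at h1 h2
    linarith
  have h2 : ((K / d : ℕ) : ℝ) ≤ K / d := Nat.cast_div_le
  have h3 : (K : ℝ) / d ≤ K / 5 := by gcongr
  calc _ ≤ (6 * (K : ℝ) / d + 1) * (K / d) := by gcongr
    _ = 6 * (K : ℝ) ^ 2 * (1 / (d : ℝ) ^ 2) + K / d := by field_simp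
    _ ≤ _ := by linarith

lemma cover (K : ℕ) : Ioc 0 (6 * K) ×ˢ Ioc 0 K ⊆
    GG K ∪ ((Ioc 0 (3 * K) ×ˢ Ioc 0 K) ∪ (Icc 5 K).biUnion (fun d => BB K d)) := by
  rintro ⟨u, w⟩ h
  rw [mem_product, mem_Ioc, mem_Ioc] at h
  obtain ⟨⟨hu0, hu1⟩, hw0, hw1⟩ := h
  simp only at hu0 hu1 hw0 hw1
  by_contra hcon
  simp only [mem_union, not_or, GG, BB, mem_filter, mem_product, mem_Ioc, mem_biUnion, mem_Icc,
    not_exists, not_and] at hcon
  obtain ⟨h1, h2, h5⟩ := hcon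
  have h2' : 3 * K < u := by
    by_contra hc
    push Not at hc
    exact h2 ⟨hu0, by omega⟩ hw0 hw1
  apply h1 ⟨⟨hu0, hu1⟩, hw0, hw1⟩ _ h2'
  by_contra hnc
  obtain ⟨p, hp, hpu, hpw⟩ := Nat.Prime.not_coprime_iff_dvd.1 hnc
  have hp2 : p ≠ 2 := by
    rintro rfl
    omega
  have hp3 : p ≠ 3 := by
    rintro rfl
    omega
  have hp4 : p ≠ 4 := by
    rintro rfl
    revert hp
    norm_num
  have hp5 : 5 ≤ p := by
    have := hp.two_le
    omega
  have hpK : p ≤ K := (Nat.le_of_dvd hw0 hpw).trans hw1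
  exact h5 p ⟨hp5, hpK⟩ ⟨⟨hu0, hu1⟩, hpu⟩ ⟨hw0, hw1⟩ hpw

lemma card_GG (K : ℕ) : (K : ℝ) ^ 2 ≤ ((GG K).card : ℝ) := by
  have h := card_le_card (cover K)
  have h1 : (Ioc 0 (6 * K) ×ˢ Ioc 0 K).card = 6 * K * K := by simp
  have h2 : (Ioc 0 (3 * K) ×ˢ Ioc 0 K).card = 3 * K * K := by simp
  have h4 : 6 * K * K ≤ (GG K).card + (3 * K * K + ∑ d ∈ Icc 5 K, (BB K d).card) := by
    rw [← h1, ← h2]
    refine h.trans ?_
    refine (card_union_le _ _).trans ?_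
    refine Nat.add_le_add_left ?_ _
    refine (card_union_le _ _).trans ?_
    refine Nat.add_le_add_left ?_ _
    exact card_biUnion_le
  have h4' : (6 : ℝ) * K * K ≤ ((GG K).card : ℝ) + (3 * K * K +
      ∑ d ∈ Icc 5 K, ((BB K d).card : ℝ)) := by exact_mod_cast h4
  have h6 : ∑ d ∈ Icc 5 K, ((BB K d).card : ℝ) ≤ 6 * (K : ℝ) ^ 2 * (1 / 4) + K * (K / 5) := by
    calc ∑ d ∈ Icc 5 K, ((BB K d).card : ℝ) ≤
        ∑ d ∈ Icc 5 K, (6 * (K : ℝ) ^ 2 * (1 / (d : ℝ) ^ 2) + K / 5) := by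
          apply sum_le_sum
          intro d hd
          rw [mem_Icc] at hd
          exact card_BB K d hd.1
      _ = 6 * (K : ℝ) ^ 2 * ∑ d ∈ Icc 5 K, (1 / (d : ℝ) ^ 2) +
          ((Icc 5 K).card : ℝ) * (K / 5) := by
          rw [sum_add_distrib, mul_sum, sum_const, nsmul_eq_mul]
      _ ≤ _ := by
          have hc : ((Icc 5 K).card : ℝ) ≤ K := by
            rw [Nat.card_Icc]
            exact_mod_cast (by omega : K + 1 - 5 ≤ K)
          have a1 := mul_le_mul_of_nonneg_left (Pool.Agent.W376.RTL.sum_sq_inv' K)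
            (by positivity : (0 : ℝ) ≤ 6 * (K : ℝ) ^ 2)
          have a2 := mul_le_mul_of_nonneg_right hc (by positivity : (0 : ℝ) ≤ (K : ℝ) / 5)
          linarith
  nlinarith [sq_nonneg (K : ℝ)]

theorem low28 : LOW28 := by
  refine ⟨1 / 5476, 314928, 74, by norm_num, fun T H hT hH => ?_⟩
  set K := T / 37 with hK
  have hKT : 37 * K ≤ T := Nat.mul_div_le T 37
  have hK1 : 1 ≤ K := by omega
  have hKT' : (T : ℝ) ≤ 74 * K := by
    have h1 : T < 37 * (K + 1) := Nat.lt_mul_div_succ T (by norm_num)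
    have h2 : T ≤ 74 * K := by omega
    exact_mod_cast h2
  have hG := card_GG K
  have hcard : (GG K).card ≤ (Cv 8 H).card := by
    classical
    apply card_le_card_of_injOn (fun t : ℕ × ℕ =>
      (A8 (M28 ((6 * t.1 + 1 : ℕ) : ℤ) ((6 * t.2 : ℕ) : ℤ))
        (N28 ((6 * t.1 + 1 : ℕ) : ℤ) ((6 * t.2 : ℕ) : ℤ)),
      B8 (M28 ((6 * t.1 + 1 : ℕ) : ℤ) ((6 * t.2 : ℕ) : ℤ))
        (N28 ((6 * t.1 + 1 : ℕ) : ℤ) ((6 * t.2 : ℕ) : ℤ))))
    · intro t ht
      rw [GG, coe_filter, Set.mem_ofPred_eq, mem_product, mem_Ioc, mem_Ioc] at ht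
      obtain ⟨⟨⟨hu0, hu1⟩, hw0, hw1⟩, hc, hlt⟩ := ht
      rw [mem_coe]
      apply mem28 (T := (T : ℤ))
      · apply Nat.isCoprime_iff_coprime.2
        apply Nat.Coprime.mul_right _ hc
        rw [Nat.coprime_comm]
        simp
      · push_cast
        exact Dvd.intro _ rfl
      · exact_mod_cast (by omega : 0 < 6 * t.2)
      · exact_mod_cast (by omega : 3 * (6 * t.2) < 6 * t.1 + 1)
      · exact_mod_cast (by omega : 6 * t.1 + 1 ≤ T)
      · exact_mod_cast hH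
    · intro t ht t' ht' h
      rw [GG, coe_filter, Set.mem_ofPred_eq, mem_product, mem_Ioc, mem_Ioc] at ht ht'
      obtain ⟨⟨⟨hu0, hu1⟩, hw0, hw1⟩, hc, hlt⟩ := ht
      obtain ⟨⟨⟨hu0', hu1'⟩, hw0', hw1'⟩, hc', hlt'⟩ := ht'
      simp only [Prod.mk.injEq] at h
      obtain ⟨e1, e2⟩ := inj28 (by exact_mod_cast (by omega : 0 < 6 * t.2))
        (by exact_mod_cast (by omega : 3 * (6 * t.2) < 6 * t.1 + 1))
        (by exact_mod_cast (by omega : 0 < 6 * t'.2))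
        (by exact_mod_cast (by omega : 3 * (6 * t'.2) < 6 * t'.1 + 1)) h.1 h.2
      have e3 : 6 * t.1 + 1 = 6 * t'.1 + 1 := by exact_mod_cast e1
      have e4 : 6 * t.2 = 6 * t'.2 := by exact_mod_cast e2
      apply Prod.ext <;> omega
  have hcard' : ((GG K).card : ℝ) ≤ ((Cv 8 H).card : ℝ) := by exact_mod_cast hcard
  have hT0 : (0 : ℝ) ≤ T := Nat.cast_nonneg _
  have : (T : ℝ) ^ 2 ≤ (74 * K) ^ 2 := by gcongr
  nlinarith

end Pool.Agent.L0h80.T8
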