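import Pool.Agent.L0h5.T8.Stm
import Pool.Agent.W605.RT.PAR4
import Pool.Agent.W135.RT.Par6
import Pool.Agent.W261.RT.Iso

/-!
# PAR28: parametrisation of the curves with a subgroup `Z/2 x Z/8`
-/

set_option autoImplicit false

namespace Pool.Agent.L0h80.T8

open Finset Pool.Agent.W262.RK Pool.Agent.W307.RT WeierstrassCurve.Affine Pool.Agent.L0h5.T8
open Pool.Agent.W605.RT (sh_eq sh_negY two_tors root_sq)
open Pool.Agent.W135.RT (int_root minim)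

/-- the data attached to a curve -/
structure RR (M N A B u v : ℤ) (s : ℚ) : Prop where
  s0 : s ≠ 0
  cop : IsCoprime u v
  m0 : M ≠ 0
  n0 : N ≠ 0
  mn : M ≠ N
  ea : 3 * (A : ℚ) = -s ^ 4 * ((M : ℚ) ^ 2 - M * N + (N : ℚ) ^ 2)
  eb : 27 * (B : ℚ) = s ^ 6 * (((M : ℚ) + N) * (2 * M - N) * (M - 2 * N))
  im : ∃ i : ℤ, s ^ 2 * (M : ℚ) = i
  jn : ∃ j : ℤ, s ^ 2 * (N : ℚ) = j

theorem dbl {A B : ℤ} {P : (Sh A B).toAffine.Point} {X Y : ℚ}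
    {h : (Sh A B).toAffine.Nonsingular X Y} (hP : P + P = Point.some X Y h) :
    ∃ x y : ℚ, y ≠ 0 ∧ y ^ 2 = x ^ 3 + A * x + B ∧ X = ((3 * x ^ 2 + A) / (2 * y)) ^ 2 - 2 * x ∧
      ∃ h', P = Point.some x y h' := by
  rcases P with _ | ⟨x, y, hxy⟩
  · exfalso
    have : (Point.zero : (Sh A B).toAffine.Point) + Point.zero = 0 := by
      have := add_zero (0 : (Sh A B).toAffine.Point)
      exact this
    rw [this] at hP
    exact Point.some_ne_zero _ hP.symm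
  · have hxy' := sh_eq.mp hxy.1
    by_cases hy : y = (Sh A B).toAffine.negY x y
    · exfalso
      rw [Point.add_self_of_Y_eq hy] at hP
      exact Point.some_ne_zero _ hP.symm
    · rw [Point.add_self_of_Y_ne hy] at hP
      have hX := (Point.some.inj hP).1
      rw [sh_negY] at hy
      have hy0 : y ≠ 0 := by
        intro h0
        apply hy
        rw [h0]; simp
      refine ⟨x, y, hy0, hxy', ?_, hxy, rfl⟩
      rw [← hX, WeierstrassCurve.Affine.addX, WeierstrassCurve.Affine.slope_of_Y_ne rfl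
        (by rwa [sh_negY]), sh_negY]
      simp only [Sh]
      ring

/-- the algebra of the points of order 8 -/
theorem eight_tors {A B : ℤ} (hD : 4 * A ^ 3 + 27 * B ^ 2 ≠ 0) (hT : HasT 8 (Sh A B)) :
    ∃ e1 e2 e3 m n t1 t2 : ℚ, e1 + e2 + e3 = 0 ∧ e1 ^ 3 + A * e1 + B = 0 ∧
      e2 ^ 3 + A * e2 + B = 0 ∧ e3 ^ 3 + A * e3 + B = 0 ∧ (A : ℚ) = e1 * e2 + e1 * e3 + e2 * e3 ∧
      (B : ℚ) = -(e1 * e2 * e3) ∧ m ≠ 0 ∧ n ≠ 0 ∧ m ^ 2 ≠ n ^ 2 ∧ e1 - e2 = m ^ 2 ∧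
      e1 - e3 = n ^ 2 ∧ m * n = t1 ^ 2 ∧ m * (m + n) = t2 ^ 2 := by
  obtain ⟨P, Q, hP, hQ, hPQ⟩ := hT
  have h4 : addOrderOf (4 • P) = 2 := by
    rw [addOrderOf_nsmul' P (by norm_num), hP]
    norm_num
  obtain ⟨e1, h1, hPP⟩ := two_tors h4
  obtain ⟨e2, h2, hQ'⟩ := two_tors hQ
  have hne : e1 ≠ e2 := by
    intro h
    subst h
    apply hPQ
    rw [hQ', ← hPP]
    exact AddSubgroup.nsmul_mem_zmultiples P 4
  have r1 := sh_eq.mp h1.1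
  have r2 := sh_eq.mp h2.1
  have e4 : 2 • P + 2 • P = Point.some e1 0 h1 := by
    rw [← hPP, ← add_nsmul]
  obtain ⟨X, Y, hY, hXY, hX, hXh, hX'⟩ := dbl e4
  rw [two_nsmul] at hX'
  obtain ⟨x, y, hy, hxy, hx, -⟩ := dbl hX'
  have r1' : e1 ^ 3 + A * e1 + B = 0 := by linarith
  have r2' : e2 ^ 3 + A * e2 + B = 0 := by linarith
  have hs : e1 ^ 2 + e1 * e2 + e2 ^ 2 + A = 0 := by
    have : (e1 - e2) * (e1 ^ 2 + e1 * e2 + e2 ^ 2 + A) = 0 := by linear_combination r1' - r2'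
    exact (mul_eq_zero.mp this).resolve_left (sub_ne_zero.mpr hne)
  set e3 : ℚ := -e1 - e2 with he3
  have r3' : e3 ^ 3 + A * e3 + B = 0 := by
    rw [he3]
    linear_combination r1' + (-2 * e1 - e2) * hs
  have hA : (A : ℚ) = e1 * e2 + e1 * e3 + e2 * e3 := by rw [he3]; linear_combination hs
  have hB : (B : ℚ) = -(e1 * e2 * e3) := by
    rw [he3]; linear_combination r1' - e1 * hs
  have hdisc : 4 * (A : ℚ) ^ 3 + 27 * (B : ℚ) ^ 2 =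
      -((e1 - e2) ^ 2 * (e1 - e3) ^ 2 * (e2 - e3) ^ 2) := by
    rw [hA, hB, he3]; ring
  have hD' : 4 * (A : ℚ) ^ 3 + 27 * (B : ℚ) ^ 2 ≠ 0 := by exact_mod_cast hD
  have h31 : e1 ≠ e3 := by
    intro h; apply hD'; rw [hdisc, ← h]; ring
  have h32 : e2 ≠ e3 := by
    intro h; apply hD'; rw [hdisc, ← h]; ring
  have s1 := root_sq hy hxy r1' hx
  have s2 := root_sq hy hxy r2' hx
  have q1 := root_sq hY hXY r1' hX
  have q2 := root_sq hY hXY r2' hX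
  have q3 := root_sq hY hXY r3' hX
  set t1 : ℚ := (x ^ 2 - 2 * e1 * x - A - 2 * e1 ^ 2) / (2 * y) with ht1
  set t2 : ℚ := (x ^ 2 - 2 * e2 * x - A - 2 * e2 ^ 2) / (2 * y) with ht2
  set m : ℚ := (X ^ 2 - 2 * e2 * X - A - 2 * e2 ^ 2) / (2 * Y) with hm
  set n : ℚ := (X ^ 2 - 2 * e3 * X - A - 2 * e3 ^ 2) / (2 * Y) with hn
  clear_value t1 t2 m n
  have hm0 : m ≠ 0 := by
    rintro rfl
    apply hne; linarith
  have hn0 : n ≠ 0 := by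
    rintro rfl
    apply h31; linarith
  have hmn : m ^ 2 ≠ n ^ 2 := by
    intro h
    apply h32; linarith
  have q1' : (X - e1) ^ 2 = m ^ 2 * n ^ 2 := by
    have h5 : (X ^ 2 - 2 * e1 * X - A - 2 * e1 ^ 2) / (2 * Y) = 0 := by
      have h6 : ((X ^ 2 - 2 * e1 * X - A - 2 * e1 ^ 2) / (2 * Y)) ^ 2 = 0 := by
        rw [← q1]; ring
      exact pow_eq_zero_iff (two_ne_zero) |>.mp h6
    rw [div_eq_zero_iff] at h5
    rcases h5 with h5 | h5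
    · rw [← q2, ← q3, he3]
      linear_combination h5 + hs
    · exact absurd h5 (mul_ne_zero two_ne_zero hY)
  have q4 : (m * n - t1 ^ 2) * (m * n + t1 ^ 2) = 0 := by
    rw [s1] at q1'
    linear_combination -q1'
  rcases mul_eq_zero.mp q4 with q5 | q5
  · refine ⟨e1, e2, e3, m, n, t1, t2, by rw [he3]; ring, r1', r2', r3', hA, hB, hm0, hn0, hmn, q2,
      q3, by linarith, ?_⟩
    linear_combination s2 - s1 + q5 + q2 * (-1)
  · refine ⟨e1, e2, e3, m, -n, t1, t2, by rw [he3]; ring, r1', r2', r3', hA, hB, hm0,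
      neg_ne_zero.mpr hn0, by rwa [neg_sq], q2, by rw [neg_sq]; exact q3, by linarith, ?_⟩
    linear_combination s2 - s1 - q5 + q2 * (-1)

theorem exR {A B : ℤ} (hD : 4 * A ^ 3 + 27 * B ^ 2 ≠ 0) (hT : HasT 8 (Sh A B)) :
    ∃ (u v : ℤ) (s : ℚ), RR (M28 u v) (N28 u v) A B u v s := by
  obtain ⟨e1, e2, e3, m, n, t1, t2, hsum, r1, r2, r3, hA, hB, hm, hn, hmn, h12, h13, q1, q2⟩ :=
    eight_tors hD hT
  have ht1 : t1 ≠ 0 := by
    rintro rfl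
    rw [zero_pow two_ne_zero] at q1
    exact (mul_ne_zero hm hn) q1
  -- the point of the hyperbola
  set z : ℚ := (t1 + t2) / m with hz
  have hz1 : (t2 - t1) * (t1 + t2) = m ^ 2 := by linear_combination q1 - q2
  have hz0 : z ≠ 0 := by
    intro h
    rw [hz, div_eq_zero_iff] at h
    rcases h with h | h
    · rw [h, mul_zero] at hz1
      exact (pow_ne_zero 2 hm) hz1.symm
    · exact hm h
  set u : ℤ := z.num with hu
  set v : ℤ := (z.den : ℤ) with hv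
  have hv0 : (v : ℚ) ≠ 0 := by rw [hv]; exact_mod_cast z.den_nz
  have huv : (u : ℚ) / v = z := by rw [hu, hv]; exact_mod_cast Rat.num_div_den z
  have hu0 : (u : ℚ) ≠ 0 := by
    intro h; apply hz0; rw [← huv, h, zero_div]
  set s : ℚ := m / (4 * u ^ 2 * v ^ 2) with hs
  have hs0 : s ≠ 0 := div_ne_zero hm (by positivity)
  have e5 : t1 + t2 = m * u / v := by
    have : z * m = t1 + t2 := by rw [hz]; field_simp
    rw [← this, ← huv]; field_simp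
  have e6 : t2 - t1 = m * v / u := by
    have h7 : t1 + t2 ≠ 0 := by rw [e5]; exact div_ne_zero (mul_ne_zero hm hu0) hv0
    have h8 : (t2 - t1) * (t1 + t2) = (m * v / u) * (t1 + t2) := by
      rw [hz1, e5]; field_simp
    exact mul_right_cancel₀ h7 h8
  have e7 : t1 = m * (u ^ 2 - v ^ 2) / (2 * u * v) := by
    have : t1 = ((t1 + t2) - (t2 - t1)) / 2 := by ring
    rw [this, e5, e6]; field_simp
  have e8 : n = s * (u ^ 2 - v ^ 2) ^ 2 := by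
    have : n = t1 ^ 2 / m := by rw [← q1]; field_simp
    rw [this, e7, hs]; field_simp; ring
  have e9 : m = s * (4 * u ^ 2 * v ^ 2) := by rw [hs]; field_simp
  have eM : e1 - e2 = s ^ 2 * (M28 u v : ℚ) := by
    rw [h12, e9]; unfold M28; push_cast; ring
  have eN : e1 - e3 = s ^ 2 * (N28 u v : ℚ) := by
    rw [h13, e8]; unfold N28; push_cast; ring
  refine ⟨u, v, s, hs0, ?_, ?_, ?_, ?_, ?_, ?_, ?_, ?_⟩
  · rw [hu, hv, Int.isCoprime_iff_gcd_eq_one]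
    exact z.reduced
  · intro h
    rw [h, h12] at eM
    simp at eM
    exact hm eM
  · intro h
    rw [h, h13] at eN
    simp at eN
    exact hn eN
  · intro h
    rw [h] at eM
    apply hmn
    rw [← h12, ← h13, eM, eN]
  · have a1 : e2 = e1 - s ^ 2 * (M28 u v : ℚ) := by linarith
    have a2 : e3 = e1 - s ^ 2 * (N28 u v : ℚ) := by linarith
    have a3 : e1 = s ^ 2 * ((M28 u v : ℚ) + N28 u v) / 3 := by linarith
    rw [hA, a1, a2, a3]; ring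
  · have a1 : e2 = e1 - s ^ 2 * (M28 u v : ℚ) := by linarith
    have a2 : e3 = e1 - s ^ 2 * (N28 u v : ℚ) := by linarith
    have a3 : e1 = s ^ 2 * ((M28 u v : ℚ) + N28 u v) / 3 := by linarith
    rw [hB, a1, a2, a3]; ring
  · obtain ⟨i, hi⟩ := int_root r1
    obtain ⟨j, hj⟩ := int_root r2
    exact ⟨i - j, by rw [← eM, hi, hj]; push_cast; ring⟩
  · obtain ⟨i, hi⟩ := int_root r1
    obtain ⟨j, hj⟩ := int_root r3
    exact ⟨i - j, by rw [← eN, hi, hj]; push_cast; ring⟩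

theorem fin_eq {M N A B u v : ℤ} {s : ℚ} (hR : RR M N A B u v s) :
    Module.finrank ℤ (Sh A B).toAffine.Point =
      Module.finrank ℤ (EAB (-M) (-N)).toAffine.Point := by
  set r : ℚ := s ^ 2 * ((M : ℚ) + N) / 3 with hr
  obtain ⟨e⟩ := Pool.Agent.W261.RT.iso 0 (A : ℚ) (B : ℚ) r s hR.s0
  have hs := hR.s0
  have h1 : (⟨0, (0 + 3 * r) / s ^ 2, 0, ((A : ℚ) + 2 * r * 0 + 3 * r ^ 2) / s ^ 4,
      ((B : ℚ) + r * A + r ^ 2 * 0 + r ^ 3) / s ^ 6⟩ : WeierstrassCurve ℚ) =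
      EAB (-M) (-N) := by
    have e1 : (0 + 3 * r) / s ^ 2 = (M : ℚ) + N := by
      rw [hr]; field_simp; ring
    have e2 : ((A : ℚ) + 2 * r * 0 + 3 * r ^ 2) / s ^ 4 = (M : ℚ) * N := by
      rw [div_eq_iff (pow_ne_zero 4 hs), hr]
      linear_combination (1 / 3) * hR.ea
    have e3 : ((B : ℚ) + r * A + r ^ 2 * 0 + r ^ 3) / s ^ 6 = 0 := by
      rw [div_eq_zero_iff]; left
      rw [hr]
      linear_combination (1 / 27) * hR.eb + (1 / 9) * s ^ 2 * ((M : ℚ) + N) * hR.ea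
    rw [e1, e2, e3]
    unfold EAB
    push_cast
    congr 1 <;> ring
  have h2 := (e.toIntLinearEquiv).finrank_eq
  have h3 : (Sh A B) = (⟨0, 0, 0, (A : ℚ), (B : ℚ)⟩ : WeierstrassCurve ℚ) := rfl
  rw [h3, h2, h1]

theorem bez {u v : ℤ} (h : IsCoprime u v) : ∃ x y : ℤ, x * M28 u v + y * N28 u v = 16 := by
  have h1 : IsCoprime u (u ^ 2 - v ^ 2) := by
    have h2 : IsCoprime u (v ^ 2) := h.pow_right
    have h3 : u ^ 2 - v ^ 2 = -v ^ 2 + u * u := by ring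
    rw [h3, IsCoprime.add_mul_left_right_iff, IsCoprime.neg_right_iff]
    exact h2
  have h2 : IsCoprime v (u ^ 2 - v ^ 2) := by
    have h2 : IsCoprime v (u ^ 2) := h.symm.pow_right
    have h3 : u ^ 2 - v ^ 2 = u ^ 2 + v * (-v) := by ring
    rw [h3, IsCoprime.add_mul_left_right_iff]
    exact h2
  obtain ⟨x, y, hxy⟩ := (IsCoprime.mul_left h1 h2).pow (m := 4) (n := 4)
  refine ⟨x, 16 * y, ?_⟩
  unfold M28 N28
  linear_combination 16 * hxy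

theorem ineq1 (u v : ℝ) (h : v ^ 2 ≤ u ^ 2) :
    3 * u ^ 16 ≤ 64 * ((16 * u ^ 4 * v ^ 4) ^ 2 - (16 * u ^ 4 * v ^ 4) * ((u ^ 2 - v ^ 2) ^ 4) +
      ((u ^ 2 - v ^ 2) ^ 4) ^ 2) := by
  set M := 16 * u ^ 4 * v ^ 4 with hM
  set N := (u ^ 2 - v ^ 2) ^ 4 with hN
  have k1 : 3 / 4 * M ^ 2 ≤ M ^ 2 - M * N + N ^ 2 := by nlinarith [sq_nonneg (M / 2 - N)]
  have k2 : 3 / 4 * N ^ 2 ≤ M ^ 2 - M * N + N ^ 2 := by nlinarith [sq_nonneg (N / 2 - M)]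
  have hu8 : 0 ≤ u ^ 8 := by positivity
  by_cases hc : u ^ 2 / 4 ≤ v ^ 2
  · have h1 : (u ^ 2 / 4) ^ 2 ≤ (v ^ 2) ^ 2 := pow_le_pow_left₀ (by positivity) hc 2
    have h2 : u ^ 8 ≤ M := by
      have : 16 * u ^ 4 * (u ^ 2 / 4) ^ 2 ≤ 16 * u ^ 4 * (v ^ 2) ^ 2 :=
        mul_le_mul_of_nonneg_left h1 (by positivity)
      calc u ^ 8 = 16 * u ^ 4 * (u ^ 2 / 4) ^ 2 := by ring
        _ ≤ _ := this
        _ = M := by rw [hM]; ring
    have h3 : (u ^ 8) ^ 2 ≤ M ^ 2 := pow_le_pow_left₀ hu8 h2 2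
    have h4 : (u ^ 8) ^ 2 = u ^ 16 := by ring
    have h5 : 0 ≤ u ^ 16 := by positivity
    linarith
  · have hc' := not_le.mp hc
    have h1 : 3 / 4 * u ^ 2 ≤ u ^ 2 - v ^ 2 := by linarith
    have h2 : (3 / 4 * u ^ 2) ^ 4 ≤ N := pow_le_pow_left₀ (by positivity) h1 4
    have h3 : u ^ 8 / 4 ≤ N := by
      have : (3 / 4 * u ^ 2) ^ 4 = 81 / 256 * u ^ 8 := by ring
      linarith
    have h4 : (u ^ 8 / 4) ^ 2 ≤ N ^ 2 := pow_le_pow_left₀ (by positivity) h3 2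
    have h5 : (u ^ 8 / 4) ^ 2 = u ^ 16 / 16 := by ring
    linarith

theorem ineq2 (u v : ℝ) :
    3 * u ^ 16 ≤ 64 * ((16 * u ^ 4 * v ^ 4) ^ 2 - (16 * u ^ 4 * v ^ 4) * ((u ^ 2 - v ^ 2) ^ 4) +
      ((u ^ 2 - v ^ 2) ^ 4) ^ 2) ∧
    3 * v ^ 16 ≤ 64 * ((16 * u ^ 4 * v ^ 4) ^ 2 - (16 * u ^ 4 * v ^ 4) * ((u ^ 2 - v ^ 2) ^ 4) +
      ((u ^ 2 - v ^ 2) ^ 4) ^ 2) := by
  rcases le_total (v ^ 2) (u ^ 2) with h | h
  · have h1 := ineq1 u v h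
    have h2 : (v ^ 2) ^ 8 ≤ (u ^ 2) ^ 8 := pow_le_pow_left₀ (by positivity) h 8
    refine ⟨h1, ?_⟩
    have : v ^ 16 ≤ u ^ 16 := by calc v ^ 16 = (v ^ 2) ^ 8 := by ring
      _ ≤ _ := h2
      _ = _ := by ring
    linarith
  · have h1 := ineq1 v u h
    have h2 : (u ^ 2) ^ 8 ≤ (v ^ 2) ^ 8 := pow_le_pow_left₀ (by positivity) h 8
    have h3 : u ^ 16 ≤ v ^ 16 := by calc u ^ 16 = (u ^ 2) ^ 8 := by ring
      _ ≤ _ := h2
      _ = _ := by ring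
    have h4 : (16 * v ^ 4 * u ^ 4) = (16 * u ^ 4 * v ^ 4) := by ring
    have h5 : (v ^ 2 - u ^ 2) ^ 4 = (u ^ 2 - v ^ 2) ^ 4 := by ring
    rw [h4, h5] at h1
    exact ⟨by linarith, h1⟩

theorem bound {A B u v : ℤ} {s : ℚ} (hR : RR (M28 u v) (N28 u v) A B u v s) (w : ℤ)
    (hw : w = u ∨ w = v) : w ^ 16 ≤ 16384 * |A| := by
  obtain ⟨x, y, hxy⟩ := bez hR.cop
  obtain ⟨i, hi⟩ := hR.im
  obtain ⟨j, hj⟩ := hR.jn
  have h1 : 16 * s ^ 2 = ((x * i + y * j : ℤ) : ℚ) := by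
    push_cast
    rw [← hi, ← hj]
    have : ((x * M28 u v + y * N28 u v : ℤ) : ℚ) = 16 := by rw [hxy]; norm_num
    push_cast at this
    linear_combination -s ^ 2 * this
  have hs2 : 0 < s ^ 2 := by have := hR.s0; positivity
  have h2 : (1 : ℚ) ≤ 16 * s ^ 2 := by
    rw [h1]
    have h3 : (0 : ℚ) < ((x * i + y * j : ℤ) : ℚ) := by rw [← h1]; linarith
    have h4 : (0 : ℤ) < x * i + y * j := by exact_mod_cast h3
    exact_mod_cast h4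
  set K : ℤ := (M28 u v) ^ 2 - M28 u v * N28 u v + (N28 u v) ^ 2 with hK
  have hK0 : 0 ≤ K := by
    have : 0 ≤ 4 * K := by
      rw [hK]; nlinarith [sq_nonneg (2 * M28 u v - N28 u v), sq_nonneg (N28 u v)]
    omega
  have hKq : (K : ℚ) = (M28 u v : ℚ) ^ 2 - M28 u v * N28 u v + (N28 u v : ℚ) ^ 2 := by
    rw [hK]; push_cast; ring
  have h5 : 3 * (A : ℚ) = -s ^ 4 * K := by rw [hKq]; exact hR.ea
  have h6 : (K : ℚ) ≤ 768 * |(A : ℚ)| := by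
    have h7 : 3 * |(A : ℚ)| = s ^ 4 * K := by
      have : |3 * (A : ℚ)| = |-s ^ 4 * K| := by rw [h5]
      rw [abs_mul, abs_mul, abs_neg, abs_of_nonneg (by positivity : (0 : ℚ) ≤ s ^ 4)] at this
      rw [abs_of_nonneg (by exact_mod_cast hK0 : (0 : ℚ) ≤ K)] at this
      simpa using this
    have h8 : (1 : ℚ) ≤ 256 * s ^ 4 := by nlinarith
    have h9 : (1 : ℚ) * K ≤ 256 * s ^ 4 * K :=
      mul_le_mul_of_nonneg_right h8 (by exact_mod_cast hK0)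
    linarith
  have h10 : K ≤ 768 * |A| := by exact_mod_cast h6
  have h11 : 3 * w ^ 16 ≤ 64 * K := by
    have h12 := ineq2 (u : ℝ) (v : ℝ)
    have h13 : (K : ℝ) = (16 * (u : ℝ) ^ 4 * v ^ 4) ^ 2 - (16 * (u : ℝ) ^ 4 * v ^ 4) *
        (((u : ℝ) ^ 2 - v ^ 2) ^ 4) + (((u : ℝ) ^ 2 - v ^ 2) ^ 4) ^ 2 := by
      rw [hK]; unfold M28 N28; push_cast; ring
    rw [← h13] at h12
    rcases hw with rfl | rfl
    · exact_mod_cast h12.1
    · exact_mod_cast h12.2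
  omega

theorem bound2 {A B u v : ℤ} {s : ℚ} (hR : RR (M28 u v) (N28 u v) A B u v s) (H : ℕ)
    (hH : 4 * |A| ^ 3 ≤ (H : ℤ)) (w : ℤ) (hw : w = u ∨ w = v) :
    w.natAbs ^ 48 ≤ 16384 ^ 3 * H := by
  have h1 := bound hR w hw
  have h2 : (w ^ 16) ^ 3 ≤ (16384 * |A|) ^ 3 := pow_le_pow_left₀ (by positivity) h1 3
  have h3 : (w ^ 16) ^ 3 ≤ 16384 ^ 3 * (H : ℤ) := by
    calc (w ^ 16) ^ 3 ≤ (16384 * |A|) ^ 3 := h2
      _ = 16384 ^ 3 * |A| ^ 3 := by ring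
      _ ≤ 16384 ^ 3 * (H : ℤ) := by
        apply mul_le_mul_of_nonneg_left _ (by positivity)
        have : 0 ≤ |A| ^ 3 := by positivity
        linarith
  zify
  calc |w| ^ 48 = (w ^ 16) ^ 3 := by
        rw [← pow_mul]; exact (by decide : Even 48).pow_abs w
    _ ≤ _ := h3

theorem inj {M N A B A' B' u v : ℤ} {s s' : ℚ} (hR : RR M N A B u v s) (hR' : RR M N A' B' u v s')
    (hmin : ∀ p : ℕ, p.Prime → ¬ ((p : ℤ) ^ 4 ∣ A ∧ (p : ℤ) ^ 6 ∣ B))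
    (hmin' : ∀ p : ℕ, p.Prime → ¬ ((p : ℤ) ^ 4 ∣ A' ∧ (p : ℤ) ^ 6 ∣ B')) : A = A' ∧ B = B' := by
  set σ : ℚ := s / s' with hσ
  have hs' := hR'.s0
  have hs : s = σ * s' := by rw [hσ]; field_simp
  have h1 : (A : ℚ) = σ ^ 4 * A' := by
    have e1 := hR.ea
    have e2 := hR'.ea
    rw [hs] at e1
    linear_combination (1 / 3) * e1 - (1 / 3) * σ ^ 4 * e2
  have h2 : (B : ℚ) = σ ^ 6 * B' := by
    have e1 := hR.eb
    have e2 := hR'.eb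
    rw [hs] at e1
    linear_combination (1 / 27) * e1 - (1 / 27) * σ ^ 6 * e2
  have hd0 : ((σ.den : ℤ) : ℚ) ≠ 0 := by exact_mod_cast σ.den_nz
  have hσ2 : σ * ((σ.den : ℤ) : ℚ) = (σ.num : ℚ) := by
    exact_mod_cast Rat.mul_den_eq_num σ
  have h3 : A * (σ.den : ℤ) ^ 4 = σ.num ^ 4 * A' := by
    have : (A : ℚ) * ((σ.den : ℤ) : ℚ) ^ 4 = (σ.num : ℚ) ^ 4 * A' := by
      rw [h1, ← hσ2]; ring
    exact_mod_cast this
  have h4 : B * (σ.den : ℤ) ^ 6 = σ.num ^ 6 * B' := by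
    have : (B : ℚ) * ((σ.den : ℤ) : ℚ) ^ 6 = (σ.num : ℚ) ^ 6 * B' := by
      rw [h2, ← hσ2]; ring
    exact_mod_cast this
  have hcop : IsCoprime (σ.den : ℤ) σ.num := by
    rw [Int.isCoprime_iff_gcd_eq_one, Int.gcd_comm]
    exact σ.reduced
  have h5 : ((σ.den : ℤ)).natAbs = 1 :=
    minim hmin' _ _ hcop ⟨A, by rw [← h3]; ring⟩ ⟨B, by rw [← h4]; ring⟩
  have h6 : (σ.num).natAbs = 1 :=
    minim hmin _ _ hcop.symm ⟨A', by rw [← h3]; ring⟩ ⟨B', by rw [← h4]; ring⟩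
  have h7 : (σ.den : ℤ) = 1 := by omega
  rw [h7] at h3 h4
  have h8 : σ.num = 1 ∨ σ.num = -1 := by omega
  rcases h8 with h8 | h8 <;> rw [h8] at h3 h4 <;> constructor <;> linarith

open Classical in
/-- the parameters of a curve -/
noncomputable def FF (c : ℤ × ℤ) : ℤ × ℤ :=
  if h : ∃ (w : ℤ × ℤ) (s : ℚ), RR (M28 w.1 w.2) (N28 w.1 w.2) c.1 c.2 w.1 w.2 s then h.choose
    else (0, 0)

theorem memCv {m : ℕ} {c : ℤ × ℤ} {H : ℕ} (hc : c ∈ Cv m H) :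
    4 * c.1 ^ 3 + 27 * c.2 ^ 2 ≠ 0 ∧ 4 * |c.1| ^ 3 ≤ H ∧ 27 * c.2 ^ 2 ≤ H ∧
    (∀ p : ℕ, p.Prime → ¬ ((p : ℤ) ^ 4 ∣ c.1 ∧ (p : ℤ) ^ 6 ∣ c.2)) ∧ HasT m (Sh c.1 c.2) := by
  classical
  exact (Finset.mem_filter.mp hc).2

theorem FF_spec {c : ℤ × ℤ} {H : ℕ} (hc : c ∈ Cv 8 H) :
    ∃ s : ℚ, RR (M28 (FF c).1 (FF c).2) (N28 (FF c).1 (FF c).2) c.1 c.2 (FF c).1 (FF c).2 s := by
  obtain ⟨hD, _, _, _, hT⟩ := memCv hc
  have h : ∃ (w : ℤ × ℤ) (s : ℚ), RR (M28 w.1 w.2) (N28 w.1 w.2) c.1 c.2 w.1 w.2 s := by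
    obtain ⟨u, v, s, hR⟩ := exR hD hT
    exact ⟨(u, v), s, hR⟩
  unfold FF
  rw [dif_pos h]
  exact h.choose_spec

theorem par28 : PAR28 := by
  refine ⟨16384 ^ 3, FF, fun H => ⟨?_, ?_⟩⟩
  · intro c hc c' hc' hcc
    obtain ⟨s, hR⟩ := FF_spec hc
    obtain ⟨s', hR'⟩ := FF_spec hc'
    rw [← hcc] at hR'
    have hc1 := memCv (Finset.mem_coe.mp hc)
    have hc1' := memCv (Finset.mem_coe.mp hc')
    obtain ⟨h1, h2⟩ := inj hR hR' hc1.2.2.2.1 hc1'.2.2.2.1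
    exact Prod.ext h1 h2
  · intro c hc
    obtain ⟨s, hR⟩ := FF_spec hc
    have hc1 := memCv hc
    exact ⟨hR.cop, hR.m0, hR.n0, hR.mn, bound2 hR H hc1.2.1 _ (Or.inl rfl),
      bound2 hR H hc1.2.1 _ (Or.inr rfl), fin_eq hR⟩

end Pool.Agent.L0h80.T8
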