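import Pool.Agent.L0h5.T8.Stm2
import Pool.Agent.L0h80.T8.Low28

/-!
# LOW4c: there are many curves with a point of order 4
-/

set_option autoImplicit false

namespace Pool.Agent.L0h80.T8

open Finset Pool.Agent.W262.RK Pool.Agent.W307.RT WeierstrassCurve Pool.Agent.L0h5.T8
open Pool.Agent.W29.RT (nons neg_y)

/-- the coefficients, `w = s² - 2 b` -/
def A4c (s b : ℤ) : ℤ := 27 * (3 * b ^ 2 - (s ^ 2 - 2 * b) ^ 2)

/-- the coefficients -/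
def B4c (s b : ℤ) : ℤ := 27 * ((s ^ 2 - 2 * b) * (2 * (s ^ 2 - 2 * b) ^ 2 - 9 * b ^ 2))

lemma hasP4 {s b : ℤ} (hs : s ≠ 0) (hb : b ≠ 0) : HasP 4 (Sh (A4c s b) (B4c s b)) := by
  have hsq : (s : ℚ) ≠ 0 := by exact_mod_cast hs
  have hbq : (b : ℚ) ≠ 0 := by exact_mod_cast hb
  have hA : ((A4c s b : ℤ) : ℚ) = 27 * (3 * (b : ℚ) ^ 2 - ((s : ℚ) ^ 2 - 2 * b) ^ 2) := by
    unfold A4c; push_cast; ring
  have hB : ((B4c s b : ℤ) : ℚ) = 27 * (((s : ℚ) ^ 2 - 2 * b) *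
      (2 * ((s : ℚ) ^ 2 - 2 * b) ^ 2 - 9 * (b : ℚ) ^ 2)) := by
    unfold B4c; push_cast; ring
  have hy : 27 * (b : ℚ) * s ≠ 0 := by positivity
  have hP : (Sh (A4c s b) (B4c s b)).toAffine.Nonsingular
      (3 * ((s : ℚ) ^ 2 - 2 * b) + 9 * b) (27 * (b : ℚ) * s) := by
    apply nons _ (Or.inl hy)
    rw [hA, hB]; ring
  have hR : (Sh (A4c s b) (B4c s b)).toAffine.Nonsingular (3 * ((s : ℚ) ^ 2 - 2 * b)) 0 := by
    apply nons _ (Or.inr _)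
    · rw [hA, hB]; ring
    · rw [hA]
      have : 3 * (3 * ((s : ℚ) ^ 2 - 2 * b)) ^ 2 + 27 * (3 * (b : ℚ) ^ 2 -
        ((s : ℚ) ^ 2 - 2 * b) ^ 2) = 81 * (b : ℚ) ^ 2 := by ring
      rw [this]; positivity
  set P : (Sh (A4c s b) (B4c s b)).toAffine.Point := .some _ _ hP with hPd
  set R : (Sh (A4c s b) (B4c s b)).toAffine.Point := .some _ _ hR with hRd
  have hRR : R + R = 0 := by
    rw [hRd]
    apply Affine.Point.add_self_of_Y_eq
    rw [neg_y]; simp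
  have hPP : P + P = R := by
    refine dbl_pt (l := 3 * s) hP hR hy ?_ ?_ ?_
    · rw [hA]; ring
    · ring
    · ring
  have hR0 : R ≠ 0 := Affine.Point.some_ne_zero hR
  have h2P : 2 • P = R := by rw [two_nsmul, hPP]
  have h4P : 4 • P = 0 := by
    have : (4 : ℕ) • P = 2 • (2 • P) := by rw [← mul_nsmul]
    rw [this, h2P, two_nsmul, hRR]
  refine ⟨P, ?_⟩
  have := addOrderOf_eq_prime_pow (x := P) (p := 2) (n := 1) (by simp [h2P, hR0])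
    h4P
  simpa using this

lemma minim4 {s b : ℤ} (hc : IsCoprime s b) (h3 : (3 : ℤ) ∣ b) (p : ℕ) (hp : p.Prime) :
    ¬ ((p : ℤ) ^ 4 ∣ A4c s b ∧ (p : ℤ) ^ 6 ∣ B4c s b) := by
  rintro ⟨hA, hB⟩
  have hpI : Prime (p : ℤ) := Nat.prime_iff_prime_int.1 hp
  unfold A4c at hA
  unfold B4c at hB
  have hnot : ¬ ((p : ℤ) ∣ s ∧ (p : ℤ) ∣ b) := by
    rintro ⟨h1, h2⟩
    exact hpI.not_isUnit (hc.isUnit_of_dvd' h1 h2)
  have hfin : (p : ℤ) ∣ b → (p : ℤ) ∣ (s ^ 2 - 2 * b) → False := by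
    intro h1 h2
    apply hnot
    refine ⟨hpI.dvd_of_dvd_pow (n := 2) ?_, h1⟩
    have := dvd_add h2 (Dvd.dvd.mul_left h1 2)
    have e : s ^ 2 - 2 * b + 2 * b = s ^ 2 := by ring
    rwa [e] at this
  set w : ℤ := s ^ 2 - 2 * b with hw
  by_cases hp3 : p = 3
  · subst hp3
    have h1 : (3 : ℤ) ^ 3 * 3 ∣ (3 : ℤ) ^ 3 * (3 * b ^ 2 - w ^ 2) := by
      have e : (3 : ℤ) ^ 3 * (3 * b ^ 2 - w ^ 2) = 27 * (3 * b ^ 2 - w ^ 2) := by
        ring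
      rw [e]
      have : ((3 : ℕ) : ℤ) ^ 4 = (3 : ℤ) ^ 3 * 3 := by norm_num
      rw [← this]
      exact hA
    have h2 := Int.dvd_of_mul_dvd_mul_left (by norm_num) h1
    have h4 : (3 : ℤ) ∣ w ^ 2 := by
      have := dvd_sub (Dvd.intro (b ^ 2) rfl : (3 : ℤ) ∣ 3 * b ^ 2) h2
      have e : 3 * b ^ 2 - (3 * b ^ 2 - w ^ 2) = w ^ 2 := by ring
      rwa [e] at this
    exact hfin (by exact_mod_cast h3) (by exact_mod_cast Int.prime_three.dvd_of_dvd_pow h4)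
  · have hp3' : ¬ (p : ℤ) ∣ 27 := by
      intro h
      have h1 : (p : ℤ) ∣ 3 ^ 3 := by norm_num; exact h
      have h2 := hpI.dvd_of_dvd_pow h1
      have h3 : p ∣ 3 := by exact_mod_cast h2
      rcases (Nat.dvd_prime Nat.prime_three).1 h3 with h4 | h4
      · exact hp.one_lt.ne' h4
      · exact hp3 h4
    have hp3'' : ¬ (p : ℤ) ∣ 3 := fun h => hp3' (h.trans (by norm_num))
    have hq : (p : ℤ) ∣ 3 * b ^ 2 - w ^ 2 := by
      have h1 : (p : ℤ) ∣ 27 * (3 * b ^ 2 - w ^ 2) := (dvd_pow_self _ (by norm_num)).trans hA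
      exact (hpI.dvd_or_dvd h1).resolve_left hp3'
    have h1 : (p : ℤ) ∣ w * (2 * w ^ 2 - 9 * b ^ 2) := by
      have h1 : (p : ℤ) ∣ 27 * (w * (2 * w ^ 2 - 9 * b ^ 2)) :=
        (dvd_pow_self _ (by norm_num)).trans hB
      exact (hpI.dvd_or_dvd h1).resolve_left hp3'
    have hb : (p : ℤ) ∣ b := by
      have key : (p : ℤ) ∣ 3 * b ^ 2 := by
        rcases hpI.dvd_or_dvd h1 with h | h
        · have := dvd_add hq (Dvd.dvd.mul_left h w)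
          have e : 3 * b ^ 2 - w ^ 2 + w * w = 3 * b ^ 2 := by ring
          rwa [e] at this
        · have := dvd_neg.2 (dvd_add h (Dvd.dvd.mul_left hq 2))
          have e : -(2 * w ^ 2 - 9 * b ^ 2 + 2 * (3 * b ^ 2 - w ^ 2)) = 3 * b ^ 2 := by ring
          rwa [e] at this
      exact hpI.dvd_of_dvd_pow ((hpI.dvd_or_dvd key).resolve_left hp3'')
    have hww : (p : ℤ) ∣ w := by
      apply hpI.dvd_of_dvd_pow (n := 2)
      have := dvd_sub (Dvd.dvd.mul_left (dvd_pow hb (n := 2) (by norm_num)) 3) hq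
      have e : 3 * b ^ 2 - (3 * b ^ 2 - w ^ 2) = w ^ 2 := by ring
      rwa [e] at this
    exact hfin hb hww

lemma inj4c {s b s' b' : ℤ} (hs : 0 < s) (hb : 0 < b) (hlt : s ^ 2 < 4 * b)
    (hs' : 0 < s') (hb' : 0 < b')
    (hA : A4c s b = A4c s' b') (hB : B4c s b = B4c s' b') : s = s' ∧ b = b' := by
  obtain ⟨w, hw⟩ : ∃ w, w = s ^ 2 - 2 * b := ⟨_, rfl⟩
  obtain ⟨w', hw'⟩ : ∃ w, w = s' ^ 2 - 2 * b' := ⟨_, rfl⟩
  unfold A4c at hA
  unfold B4c at hB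
  rw [← hw, ← hw'] at hA hB
  have hA' : 3 * b ^ 2 - w ^ 2 = 3 * b' ^ 2 - w' ^ 2 := by linarith
  have hB' : w * (2 * w ^ 2 - 9 * b ^ 2) = w' * (2 * w' ^ 2 - 9 * b' ^ 2) := by linarith
  -- the second root
  have h1 : (w' - w) * ((w' - w) ^ 2 + 3 * w * (w' - w) + 9 * b ^ 2) = 0 := by
    linear_combination 3 * w' * hA' + hB'
  have h2 : 0 < (w' - w) ^ 2 + 3 * w * (w' - w) + 9 * b ^ 2 := by
    have h3 : w ^ 2 < 4 * b ^ 2 := by
      have e : 4 * b ^ 2 - w ^ 2 = s ^ 2 * (4 * b - s ^ 2) := by rw [hw]; ring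
      have : 0 < s ^ 2 * (4 * b - s ^ 2) := mul_pos (by positivity) (by linarith)
      linarith
    nlinarith [sq_nonneg (2 * (w' - w) + 3 * w)]
  have h3 : w' = w := by
    rcases mul_eq_zero.1 h1 with h | h
    · linarith
    · exact absurd h h2.ne'
  subst h3
  have h4 : b ^ 2 = b' ^ 2 := by linarith
  have h5 : b = b' := (pow_left_inj₀ hb.le hb'.le two_ne_zero).1 h4
  subst h5
  have h6 : s ^ 2 = s' ^ 2 := by linarith
  exact ⟨(pow_left_inj₀ hs.le hs'.le two_ne_zero).1 h6, rfl⟩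

lemma height4c {s b T : ℤ} (hs : 0 < s) (hb : 0 < b) (hsT : s ≤ T) (hbT : b ≤ 3 * T ^ 2) :
    4 * |A4c s b| ^ 3 ≤ 20000000000 * T ^ 12 ∧ 27 * B4c s b ^ 2 ≤ 20000000000 * T ^ 12 := by
  have hT : 0 < T := by linarith
  obtain ⟨w, hw⟩ : ∃ w, w = s ^ 2 - 2 * b := ⟨_, rfl⟩
  have hsT2 : s ^ 2 ≤ T ^ 2 := pow_le_pow_left₀ hs.le hsT 2
  have hw1 : |w| ≤ 6 * T ^ 2 := by
    rw [abs_le]
    constructor
    · have : 0 ≤ s ^ 2 := by positivity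
      linarith
    · have : 0 ≤ T ^ 2 := by positivity
      linarith
  have hw2 : w ^ 2 ≤ 36 * T ^ 4 := by
    calc w ^ 2 = |w| ^ 2 := (sq_abs w).symm
      _ ≤ (6 * T ^ 2) ^ 2 := pow_le_pow_left₀ (abs_nonneg w) hw1 2
      _ = 36 * T ^ 4 := by ring
  have hb2 : b ^ 2 ≤ 9 * T ^ 4 := by
    calc b ^ 2 ≤ (3 * T ^ 2) ^ 2 := pow_le_pow_left₀ hb.le hbT 2
      _ = 9 * T ^ 4 := by ring
  have hb0 : 0 ≤ b ^ 2 := by positivity
  have hw0 : 0 ≤ w ^ 2 := by positivity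
  have hT4 : 0 ≤ T ^ 4 := by positivity
  have hA : |A4c s b| ≤ 972 * T ^ 4 := by
    unfold A4c
    rw [← hw, abs_mul, abs_of_nonneg (show (0 : ℤ) ≤ 27 by norm_num)]
    have : |3 * b ^ 2 - w ^ 2| ≤ 36 * T ^ 4 := by
      rw [abs_le]; constructor <;> linarith
    linarith
  have hB : |B4c s b| ≤ 13122 * T ^ 6 := by
    unfold B4c
    rw [← hw, abs_mul, abs_mul, abs_of_nonneg (show (0 : ℤ) ≤ 27 by norm_num)]
    have h1 : |2 * w ^ 2 - 9 * b ^ 2| ≤ 81 * T ^ 4 := by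
      rw [abs_le]; constructor <;> linarith
    calc 27 * (|w| * |2 * w ^ 2 - 9 * b ^ 2|) ≤ 27 * ((6 * T ^ 2) * (81 * T ^ 4)) := by
          gcongr
      _ = 13122 * T ^ 6 := by ring
  have hT12 : 0 ≤ T ^ 12 := by positivity
  constructor
  · calc 4 * |A4c s b| ^ 3 ≤ 4 * (972 * T ^ 4) ^ 3 := by gcongr
      _ = 3673320192 * T ^ 12 := by ring
      _ ≤ 20000000000 * T ^ 12 := by linarith
  · calc 27 * B4c s b ^ 2 = 27 * |B4c s b| ^ 2 := by rw [sq_abs]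
      _ ≤ 27 * (13122 * T ^ 6) ^ 2 := by gcongr
      _ = 4649045868 * T ^ 12 := by ring
      _ ≤ 20000000000 * T ^ 12 := by linarith

lemma mem4c {s b T : ℤ} {H : ℕ} (hc : IsCoprime s b) (h3 : (3 : ℤ) ∣ b) (hs : 0 < s) (hb : 0 < b)
    (hlt : s ^ 2 < 4 * b) (hsT : s ≤ T) (hbT : b ≤ 3 * T ^ 2)
    (hH : 20000000000 * T ^ 12 ≤ (H : ℤ)) : (A4c s b, B4c s b) ∈ Cc 4 H := by
  classical
  obtain ⟨g1, g2⟩ := height4c hs hb hsT hbT
  have g1' := g1.trans hH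
  have g2' := g2.trans hH
  have b1 : |A4c s b| ≤ (H : ℤ) := by
    have h0 := abs_nonneg (A4c s b)
    refine le_trans ?_ g1'
    generalize |A4c s b| = a at *
    rcases h0.eq_or_lt with h | h
    · rw [← h]; norm_num
    · have h1 : 1 ≤ a := h
      have h2 : 1 ≤ a ^ 2 := one_le_pow₀ h1
      nlinarith
  have b2 : |B4c s b| ≤ (H : ℤ) := by
    refine le_trans ?_ g2'
    rw [← sq_abs]
    have h0 := abs_nonneg (B4c s b)
    generalize |B4c s b| = a at *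
    rcases h0.eq_or_lt with h | h
    · rw [← h]; norm_num
    · have h1 : 1 ≤ a := h
      nlinarith
  have hdisc : 4 * A4c s b ^ 3 + 27 * B4c s b ^ 2 ≠ 0 := by
    have e : 4 * A4c s b ^ 3 + 27 * B4c s b ^ 2 = 3 ^ 12 * (b ^ 4 * (s ^ 2 * (4 * b - s ^ 2))) := by
      unfold A4c B4c; ring
    rw [e]
    have : 0 < 4 * b - s ^ 2 := by linarith
    positivity
  rw [abs_le] at b1 b2
  unfold Cc
  rw [mem_filter, mem_product, mem_Icc, mem_Icc]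
  exact ⟨⟨b1, b2⟩, hdisc, g1', g2', fun p hp => minim4 hc h3 p hp, hasP4 hs.ne' hb.ne'⟩

/-- the good pairs -/
def G4 (S Z : ℕ) : Finset (ℕ × ℕ) :=
  (Ioc 0 S ×ˢ Ioc 0 Z).filter (fun t => t.1.Coprime (3 * t.2) ∧ Z < 12 * t.2)

/-- pairs of multiples -/
def B4 (S Z d : ℕ) : Finset (ℕ × ℕ) :=
  (Ioc 0 S).filter (fun x => d ∣ x) ×ˢ (Ioc 0 Z).filter (fun x => d ∣ x)

lemma card_B4 (S Z d : ℕ) (hd : 0 < d) :
    ((B4 S Z d).card : ℝ) ≤ (S : ℝ) * Z * (1 / (d : ℝ) ^ 2) := by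
  unfold B4
  rw [card_product, Nat.Ioc_filter_dvd_card_eq_div, Nat.Ioc_filter_dvd_card_eq_div]
  push_cast
  have hd' : (0 : ℝ) < d := by exact_mod_cast hd
  have h1 : ((S / d : ℕ) : ℝ) ≤ S / d := Nat.cast_div_le
  have h2 : ((Z / d : ℕ) : ℝ) ≤ Z / d := Nat.cast_div_le
  calc ((S / d : ℕ) : ℝ) * ((Z / d : ℕ) : ℝ) ≤ (S / d) * (Z / d) := by gcongr
    _ = _ := by field_simp

lemma cover4 (S Z : ℕ) : Ioc 0 S ×ˢ Ioc 0 Z ⊆
    G4 S Z ∪ ((Ioc 0 S ×ˢ Ioc 0 (Z / 12)) ∪ (((Ioc 0 S).filter (fun x => 3 ∣ x) ×ˢ Ioc 0 Z) ∪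
      (B4 S Z 2 ∪ (Icc 5 S).biUnion (fun d => B4 S Z d)))) := by
  rintro ⟨u, w⟩ h
  rw [mem_product, mem_Ioc, mem_Ioc] at h
  obtain ⟨⟨hu0, hu1⟩, hw0, hw1⟩ := h
  simp only at hu0 hu1 hw0 hw1
  by_contra hcon
  simp only [mem_union, not_or, G4, B4, mem_filter, mem_product, mem_Ioc, mem_biUnion, mem_Icc,
    not_exists, not_and] at hcon
  obtain ⟨h1, h2, h3, h4, h5⟩ := hcon
  have h2' : Z < 12 * w := by
    by_contra hc
    push Not at hc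
    exact h2 ⟨hu0, hu1⟩ hw0 (by omega)
  have h3' : ¬ 3 ∣ u := by
    intro hd
    exact h3 ⟨⟨hu0, hu1⟩, hd⟩ hw0 hw1
  apply h1 ⟨⟨hu0, hu1⟩, hw0, hw1⟩ _ h2'
  apply Nat.Coprime.mul_right
  · rw [Nat.coprime_comm, Nat.Prime.coprime_iff_not_dvd Nat.prime_three]
    exact h3'
  · by_contra hnc
    obtain ⟨p, hp, hpu, hpw⟩ := Nat.Prime.not_coprime_iff_dvd.1 hnc
    have hp2 : p ≠ 2 := by
      rintro rfl
      exact h4 ⟨⟨hu0, hu1⟩, hpu⟩ ⟨hw0, hw1⟩ hpw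
    have hp3 : p ≠ 3 := by
      rintro rfl
      exact h3' hpu
    have hp4 : p ≠ 4 := by
      rintro rfl
      revert hp
      norm_num
    have hp5 : 5 ≤ p := by
      have := hp.two_le
      omega
    have hpK : p ≤ S := (Nat.le_of_dvd hu0 hpu).trans hu1
    exact h5 p ⟨hp5, hpK⟩ ⟨⟨hu0, hu1⟩, hpu⟩ ⟨hw0, hw1⟩ hpw

lemma card_G4 (S Z : ℕ) : (S : ℝ) * Z / 12 ≤ ((G4 S Z).card : ℝ) := by
  have h := card_le_card (cover4 S Z)
  have h1 : (Ioc 0 S ×ˢ Ioc 0 Z).card = S * Z := by simp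
  have h2 : (Ioc 0 S ×ˢ Ioc 0 (Z / 12)).card = S * (Z / 12) := by simp
  have h3 : ((Ioc 0 S).filter (fun x => 3 ∣ x) ×ˢ Ioc 0 Z).card = S / 3 * Z := by
    rw [card_product, Nat.Ioc_filter_dvd_card_eq_div]
    simp
  have h4 : S * Z ≤ (G4 S Z).card + (S * (Z / 12) + (S / 3 * Z + ((B4 S Z 2).card +
      ∑ d ∈ Icc 5 S, (B4 S Z d).card))) := by
    rw [← h1, ← h2, ← h3]
    refine h.trans ?_
    refine (card_union_le _ _).trans ?_
    refine Nat.add_le_add_left ?_ _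
    refine (card_union_le _ _).trans ?_
    refine Nat.add_le_add_left ?_ _
    refine (card_union_le _ _).trans ?_
    refine Nat.add_le_add_left ?_ _
    refine (card_union_le _ _).trans ?_
    refine Nat.add_le_add_left ?_ _
    exact card_biUnion_le
  have h4' : (S : ℝ) * Z ≤ ((G4 S Z).card : ℝ) + (S * ((Z / 12 : ℕ) : ℝ) +
      (((S / 3 : ℕ) : ℝ) * Z + (((B4 S Z 2).card : ℝ) +
      ∑ d ∈ Icc 5 S, ((B4 S Z d).card : ℝ)))) := by exact_mod_cast h4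
  have h5 := card_B4 S Z 2 (by norm_num)
  have h6 : ∑ d ∈ Icc 5 S, ((B4 S Z d).card : ℝ) ≤ (S : ℝ) * Z * (1 / 4) := by
    calc ∑ d ∈ Icc 5 S, ((B4 S Z d).card : ℝ) ≤
        ∑ d ∈ Icc 5 S, (S : ℝ) * Z * (1 / (d : ℝ) ^ 2) := by
          apply sum_le_sum
          intro d hd
          rw [mem_Icc] at hd
          exact card_B4 S Z d (by omega)
      _ = (S : ℝ) * Z * ∑ d ∈ Icc 5 S, (1 / (d : ℝ) ^ 2) := by rw [mul_sum]
      _ ≤ _ := by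
          apply mul_le_mul_of_nonneg_left (Pool.Agent.W376.RTL.sum_sq_inv' S) (by positivity)
  have h7 : (S : ℝ) * ((Z / 12 : ℕ) : ℝ) ≤ S * (Z / 12) := by
    apply mul_le_mul_of_nonneg_left _ (Nat.cast_nonneg _)
    have := Nat.cast_div_le (α := ℝ) (m := Z) (n := 12)
    exact_mod_cast this
  have h8 : ((S / 3 : ℕ) : ℝ) * Z ≤ S / 3 * Z := by
    apply mul_le_mul_of_nonneg_right _ (Nat.cast_nonneg _)
    have := Nat.cast_div_le (α := ℝ) (m := S) (n := 3)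
    exact_mod_cast this
  push_cast at h5
  linarith

theorem low4c : LOW4c := by
  refine ⟨1 / 12, 20000000000, 1, by norm_num, fun T H hT hH => ?_⟩
  have hG := card_G4 T (T ^ 2)
  have hcard : (G4 T (T ^ 2)).card ≤ (Cc 4 H).card := by
    classical
    apply card_le_card_of_injOn (fun t : ℕ × ℕ =>
      (A4c (t.1 : ℤ) ((3 * t.2 : ℕ) : ℤ), B4c (t.1 : ℤ) ((3 * t.2 : ℕ) : ℤ)))
    · intro t ht
      rw [G4, coe_filter, Set.mem_ofPred_eq, mem_product, mem_Ioc, mem_Ioc] at ht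
      obtain ⟨⟨⟨hu0, hu1⟩, hw0, hw1⟩, hc, hlt⟩ := ht
      have h2 : t.1 ^ 2 ≤ T ^ 2 := Nat.pow_le_pow_left hu1 2
      rw [mem_coe]
      refine mem4c (T := (T : ℤ)) (Nat.isCoprime_iff_coprime.2 hc) ?_ ?_ ?_ ?_ ?_ ?_ ?_
      · push_cast
        exact Dvd.intro _ rfl
      · exact_mod_cast hu0
      · exact_mod_cast (by omega : 0 < 3 * t.2)
      · exact_mod_cast (by omega : t.1 ^ 2 < 4 * (3 * t.2))
      · exact_mod_cast hu1
      · exact_mod_cast (by omega : 3 * t.2 ≤ 3 * T ^ 2)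
      · exact_mod_cast hH
    · intro t ht t' ht' h
      rw [G4, coe_filter, Set.mem_ofPred_eq, mem_product, mem_Ioc, mem_Ioc] at ht ht'
      obtain ⟨⟨⟨hu0, hu1⟩, hw0, hw1⟩, hc, hlt⟩ := ht
      obtain ⟨⟨⟨hu0', hu1'⟩, hw0', hw1'⟩, hc', hlt'⟩ := ht'
      simp only [Prod.mk.injEq] at h
      have h2 : t.1 ^ 2 ≤ T ^ 2 := Nat.pow_le_pow_left hu1 2
      obtain ⟨e1, e2⟩ := inj4c (by exact_mod_cast hu0)
        (by exact_mod_cast (by omega : 0 < 3 * t.2))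
        (by exact_mod_cast (by omega : t.1 ^ 2 < 4 * (3 * t.2)))
        (by exact_mod_cast hu0') (by exact_mod_cast (by omega : 0 < 3 * t'.2)) h.1 h.2
      have e3 : t.1 = t'.1 := by exact_mod_cast e1
      have e4 : 3 * t.2 = 3 * t'.2 := by exact_mod_cast e2
      exact Prod.ext e3 (by omega)
  have hcard' : ((G4 T (T ^ 2)).card : ℝ) ≤ ((Cc 4 H).card : ℝ) := by exact_mod_cast hcard
  push_cast at hG
  nlinarith

end Pool.Agent.L0h80.T8
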