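import Pool.Agent.L0h5.T8.Stm2
import Pool.Agent.L0h80.T8.Par28
import Pool.Agent.L0h98.T8.Isog

/-!
# PAR4c: parametrisation of the curves with a point of order 4
-/

set_option autoImplicit false

namespace Pool.Agent.L0h80.T8

open Finset Pool.Agent.W262.RK Pool.Agent.W307.RT WeierstrassCurve.Affine Pool.Agent.L0h5.T8
open Pool.Agent.W605.RT (sh_eq sh_negY two_tors root_sq int_sqrt)
open Pool.Agent.W135.RT (int_root)

/-- the data attached to a curve with a point of order 4 -/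
structure R4c (A B s b e : ℤ) : Prop where
  s0 : s ≠ 0
  b0 : b ≠ 0
  e3 : 3 * e = s ^ 2 - 2 * b
  ea : A = b ^ 2 - 3 * e ^ 2
  eb : B = 2 * e ^ 3 - e * b ^ 2
  ne : s ^ 2 ≠ 4 * b

theorem ex4c {A B : ℤ} (hD : 4 * A ^ 3 + 27 * B ^ 2 ≠ 0) (hT : HasP 4 (Sh A B)) :
    ∃ s b e : ℤ, R4c A B s b e := by
  obtain ⟨P, hP⟩ := hT
  have h2 : addOrderOf (P + P) = 2 := by
    rw [← two_nsmul, addOrderOf_nsmul' P two_ne_zero, hP]
    norm_num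
  obtain ⟨e, he, hPP⟩ := two_tors h2
  have r1 := sh_eq.mp he.1
  obtain ⟨x, y, hy, hxy, hx, -⟩ := dbl hPP
  have r1' : e ^ 3 + A * e + B = 0 := by linarith
  have q1 := root_sq hy hxy r1' hx
  have q2 : (x - e) ^ 2 = 3 * e ^ 2 + A := by
    have h5 : (x ^ 2 - 2 * e * x - A - 2 * e ^ 2) / (2 * y) = 0 := by
      have h6 : ((x ^ 2 - 2 * e * x - A - 2 * e ^ 2) / (2 * y)) ^ 2 = 0 := by
        rw [← q1]; ring
      exact pow_eq_zero_iff (two_ne_zero) |>.mp h6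
    rw [div_eq_zero_iff] at h5
    rcases h5 with h5 | h5
    · linear_combination h5
    · exact absurd h5 (mul_ne_zero two_ne_zero hy)
  obtain ⟨E, hE⟩ := int_root r1'
  set bq : ℚ := x - e with hbq
  obtain ⟨b, hb⟩ := int_sqrt (M := 3 * E ^ 2 + A) (m := bq) (by
    push_cast; rw [← hE]; exact q2.symm)
  have hy2 : y ^ 2 = bq ^ 2 * (2 * bq + 3 * e) := by
    rw [hxy]
    have hx' : x = bq + e := by rw [hbq]; ring
    rw [hx']
    linear_combination r1' - bq * q2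
  have hbq0 : bq ≠ 0 := by
    intro h0
    rw [h0] at hy2
    apply hy
    have : y ^ 2 = 0 := by rw [hy2]; ring
    exact pow_eq_zero_iff (two_ne_zero) |>.mp this
  have hc2 : (y / bq) ^ 2 = 2 * bq + 3 * e := by
    rw [div_pow, hy2]
    field_simp
  obtain ⟨s, hs⟩ := int_sqrt (M := 2 * b + 3 * E) (m := y / bq) (by
    push_cast; rw [hb, ← hE]; exact hc2.symm)
  have t1 : s ^ 2 = 2 * b + 3 * E := by
    have : ((s ^ 2 : ℤ) : ℚ) = ((2 * b + 3 * E : ℤ) : ℚ) := by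
      push_cast; rw [hs, hb, ← hE]; exact hc2
    exact_mod_cast this
  have t2 : b ^ 2 = 3 * E ^ 2 + A := by
    have : ((b ^ 2 : ℤ) : ℚ) = ((3 * E ^ 2 + A : ℤ) : ℚ) := by
      push_cast; rw [hb, ← hE]; exact q2
    exact_mod_cast this
  have t3 : E ^ 3 + A * E + B = 0 := by
    have : ((E ^ 3 + A * E + B : ℤ) : ℚ) = ((0 : ℤ) : ℚ) := by
      push_cast; rw [← hE]; exact r1'
    exact_mod_cast this
  have hA : A = b ^ 2 - 3 * E ^ 2 := by linarith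
  have hB : B = 2 * E ^ 3 - E * b ^ 2 := by rw [hA] at t3; linarith
  refine ⟨s, b, E, ?_, ?_, by linarith, hA, hB, ?_⟩
  · rintro rfl
    have : y / bq = 0 := by rw [← hs]; simp
    rw [div_eq_zero_iff] at this
    rcases this with h | h
    · exact hy h
    · exact hbq0 h
  · rintro rfl
    apply hbq0
    rw [← hb]; simp
  · intro h
    apply hD
    have h3 : 3 * E = 2 * b := by linarith
    have h4 : 16 * (4 * A ^ 3 + 27 * B ^ 2) = 0 := by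
      rw [hA, hB]
      have e1 : (2 * b) ^ 2 = 9 * E ^ 2 := by rw [← h3]; ring
      have e2 : 4 * (b ^ 2 - 3 * E ^ 2) = -3 * E ^ 2 := by linarith
      have e3 : 4 * (2 * E ^ 3 - E * b ^ 2) = -E ^ 3 := by
        linear_combination (-E) * e1
      have e4 : 16 * (4 * (b ^ 2 - 3 * E ^ 2) ^ 3 + 27 * (2 * E ^ 3 - E * b ^ 2) ^ 2) =
          (4 * (b ^ 2 - 3 * E ^ 2)) ^ 3 + 27 * (4 * (2 * E ^ 3 - E * b ^ 2)) ^ 2 := by ring
      rw [e4, e2, e3]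
      ring
    linarith

theorem fin4c {A B s b e : ℤ} (hR : R4c A B s b e) :
    Module.finrank ℤ (Sh A B).toAffine.Point ≤
      Module.finrank ℤ (EAB (s ^ 2) (s ^ 2 - 4 * b)).toAffine.Point := by
  obtain ⟨φ⟩ := Pool.Agent.W261.RT.iso 0 (A : ℚ) (B : ℚ) e 1 one_ne_zero
  have he3 : (3 : ℚ) * e = (s : ℚ) ^ 2 - 2 * b := by exact_mod_cast hR.e3
  have hA : (A : ℚ) = (b : ℚ) ^ 2 - 3 * e ^ 2 := by exact_mod_cast hR.ea
  have hB : (B : ℚ) = 2 * (e : ℚ) ^ 3 - e * b ^ 2 := by exact_mod_cast hR.eb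
  have h1 : (⟨0, (0 + 3 * (e : ℚ)) / 1 ^ 2, 0, ((A : ℚ) + 2 * e * 0 + 3 * (e : ℚ) ^ 2) / 1 ^ 4,
      ((B : ℚ) + e * A + (e : ℚ) ^ 2 * 0 + (e : ℚ) ^ 3) / 1 ^ 6⟩ : WeierstrassCurve ℚ) =
      ⟨0, (s : ℚ) ^ 2 - 2 * b, 0, (b : ℚ) ^ 2, 0⟩ := by
    congr 1
    · linear_combination he3
    · rw [hA]; ring
    · rw [hA, hB]; ring
  have h2 := (φ.toIntLinearEquiv).finrank_eq
  rw [h1] at h2
  have hb0 : (b : ℚ) ^ 2 ≠ 0 := pow_ne_zero 2 (by exact_mod_cast hR.b0)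
  have hs0 : (s : ℚ) ^ 2 ≠ 0 := pow_ne_zero 2 (by exact_mod_cast hR.s0)
  have hne : (s : ℚ) ^ 2 - 4 * b ≠ 0 := by
    intro h
    apply hR.ne
    have : (s : ℚ) ^ 2 = 4 * b := by linarith
    exact_mod_cast this
  have h3 := Pool.Agent.L0h98.T8.isog2 ((s : ℚ) ^ 2 - 2 * b) ((b : ℚ) ^ 2) hb0 (by
    have : ((s : ℚ) ^ 2 - 2 * b) ^ 2 - 4 * (b : ℚ) ^ 2 = (s : ℚ) ^ 2 * ((s : ℚ) ^ 2 - 4 * b) := by
      ring
    rw [this]
    exact mul_ne_zero hs0 hne)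
  have h4 : (⟨0, -2 * ((s : ℚ) ^ 2 - 2 * b), 0, ((s : ℚ) ^ 2 - 2 * b) ^ 2 - 4 * (b : ℚ) ^ 2, 0⟩ :
      WeierstrassCurve ℚ) = EAB (s ^ 2) (s ^ 2 - 4 * b) := by
    unfold EAB
    push_cast
    congr 1 <;> ring
  rw [h4] at h3
  have h5 : (Sh A B) = (⟨0, 0, 0, (A : ℚ), (B : ℚ)⟩ : WeierstrassCurve ℚ) := rfl
  rw [h5, h2]
  exact h3

/-- the bounds -/
theorem bd4c {A B s b e : ℤ} (hR : R4c A B s b e) {H : ℕ} (hA : 4 * |A| ^ 3 ≤ (H : ℤ))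
    (hB : 27 * B ^ 2 ≤ (H : ℤ)) :
    s.natAbs ^ 12 ≤ 500000 * H ∧ b.natAbs ^ 6 ≤ 500000 * H := by
  have hH : (0 : ℤ) ≤ H := by positivity
  have he : e ^ 3 = -(A * e) - B := by rw [hR.ea, hR.eb]; ring
  -- the root
  have h6 : e ^ 6 ≤ 2 * H := by
    have h1 : |e| ^ 3 ≤ |A| * |e| + |B| := by
      rw [← abs_pow, he, ← abs_mul]
      calc |-(A * e) - B| ≤ |-(A * e)| + |B| := abs_sub _ _
        _ = |A * e| + |B| := by rw [abs_neg]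
    have h2 : e ^ 6 = (|e| ^ 3) ^ 2 := by
      rw [← pow_mul]
      exact ((by decide : Even 6).pow_abs e).symm
    have ha0 := abs_nonneg A
    have he0 := abs_nonneg e
    have hb0 := abs_nonneg B
    rcases le_total (|A| * |e|) |B| with h3 | h3
    · have h4 : |e| ^ 3 ≤ 2 * |B| := by linarith
      have h5 : (|e| ^ 3) ^ 2 ≤ (2 * |B|) ^ 2 := pow_le_pow_left₀ (by positivity) h4 2
      have h7 : (2 * |B|) ^ 2 = 4 * B ^ 2 := by rw [mul_pow, sq_abs]; ring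
      rw [h2]
      nlinarith [sq_nonneg B]
    · have h4 : |e| ^ 3 ≤ 2 * (|A| * |e|) := by linarith
      have h5 : |e| ^ 2 ≤ 2 * |A| := by
        rcases he0.eq_or_lt with h | h
        · rw [← h]; positivity
        · have e1 : |e| * |e| ^ 2 ≤ |e| * (2 * |A|) := by
            calc |e| * |e| ^ 2 = |e| ^ 3 := by ring
              _ ≤ _ := h4
              _ = |e| * (2 * |A|) := by ring
          exact le_of_mul_le_mul_left e1 h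
      have h7 : (|e| ^ 2) ^ 3 ≤ (2 * |A|) ^ 3 := pow_le_pow_left₀ (by positivity) h5 3
      rw [h2]
      calc (|e| ^ 3) ^ 2 = (|e| ^ 2) ^ 3 := by ring
        _ ≤ (2 * |A|) ^ 3 := h7
        _ = 2 * (4 * |A| ^ 3) := by ring
        _ ≤ 2 * H := by linarith
  have hA3 : |A| ^ 3 ≤ H := by
    have : 0 ≤ |A| ^ 3 := by positivity
    linarith
  -- `b`
  have hb6 : b ^ 6 ≤ 220 * H := by
    have h1 : b ^ 2 ≤ 3 * e ^ 2 + |A| := by
      have : b ^ 2 = 3 * e ^ 2 + A := by rw [hR.ea]; ring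
      rw [this]
      linarith [le_abs_self A]
    have h2 : (b ^ 2) ^ 3 ≤ (3 * e ^ 2 + |A|) ^ 3 := pow_le_pow_left₀ (by positivity) h1 3
    have h3 : (3 * e ^ 2 + |A|) ^ 3 ≤ 4 * ((3 * e ^ 2) ^ 3 + |A| ^ 3) := by
      have h0 : 0 ≤ 3 * e ^ 2 := by positivity
      have ha0 := abs_nonneg A
      nlinarith [mul_nonneg (add_nonneg h0 ha0) (sq_nonneg (3 * e ^ 2 - |A|))]
    calc b ^ 6 = (b ^ 2) ^ 3 := by ring
      _ ≤ (3 * e ^ 2 + |A|) ^ 3 := h2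
      _ ≤ 4 * ((3 * e ^ 2) ^ 3 + |A| ^ 3) := h3
      _ = 4 * (27 * e ^ 6 + |A| ^ 3) := by ring
      _ ≤ 220 * H := by linarith
  -- `s`
  have hs12 : s ^ 12 ≤ 500000 * H := by
    have h1 : s ^ 2 = 3 * e + 2 * b := by have := hR.e3; linarith
    have key : ∀ x y : ℤ, (x + y) ^ 6 ≤ 32 * (x ^ 6 + y ^ 6) := by
      intro x y
      have a1 : (x + y) ^ 2 ≤ 2 * (x ^ 2 + y ^ 2) := by nlinarith [sq_nonneg (x - y)]
      have a2 : ((x + y) ^ 2) ^ 3 ≤ (2 * (x ^ 2 + y ^ 2)) ^ 3 :=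
        pow_le_pow_left₀ (by positivity) a1 3
      have a3 : (x ^ 2 + y ^ 2) ^ 3 ≤ 4 * ((x ^ 2) ^ 3 + (y ^ 2) ^ 3) := by
        nlinarith [mul_nonneg (add_nonneg (sq_nonneg x) (sq_nonneg y))
          (sq_nonneg (x ^ 2 - y ^ 2))]
      calc (x + y) ^ 6 = ((x + y) ^ 2) ^ 3 := by ring
        _ ≤ (2 * (x ^ 2 + y ^ 2)) ^ 3 := a2
        _ = 8 * (x ^ 2 + y ^ 2) ^ 3 := by ring
        _ ≤ 8 * (4 * ((x ^ 2) ^ 3 + (y ^ 2) ^ 3)) := by linarith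
        _ = 32 * (x ^ 6 + y ^ 6) := by ring
    calc s ^ 12 = (s ^ 2) ^ 6 := by ring
      _ = (3 * e + 2 * b) ^ 6 := by rw [h1]
      _ ≤ 32 * ((3 * e) ^ 6 + (2 * b) ^ 6) := key _ _
      _ = 32 * (729 * e ^ 6 + 64 * b ^ 6) := by ring
      _ ≤ 500000 * H := by linarith
  constructor
  · zify
    calc |s| ^ 12 = s ^ 12 := (by decide : Even 12).pow_abs s
      _ ≤ _ := hs12
  · zify
    calc |b| ^ 6 = b ^ 6 := (by decide : Even 6).pow_abs b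
      _ ≤ _ := by linarith

open Classical in
/-- the parameters of a curve -/
noncomputable def F4c (c : ℤ × ℤ) : ℤ × ℤ :=
  if h : ∃ (w : ℤ × ℤ) (e : ℤ), R4c c.1 c.2 w.1 w.2 e then h.choose else (0, 0)

theorem memCc {m : ℕ} {c : ℤ × ℤ} {H : ℕ} (hc : c ∈ Cc m H) :
    4 * c.1 ^ 3 + 27 * c.2 ^ 2 ≠ 0 ∧ 4 * |c.1| ^ 3 ≤ H ∧ 27 * c.2 ^ 2 ≤ H ∧
    (∀ p : ℕ, p.Prime → ¬ ((p : ℤ) ^ 4 ∣ c.1 ∧ (p : ℤ) ^ 6 ∣ c.2)) ∧ HasP m (Sh c.1 c.2) := by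
  classical
  exact (Finset.mem_filter.mp hc).2

theorem F4c_spec {c : ℤ × ℤ} {H : ℕ} (hc : c ∈ Cc 4 H) :
    ∃ e : ℤ, R4c c.1 c.2 (F4c c).1 (F4c c).2 e := by
  obtain ⟨hD, _, _, _, hT⟩ := memCc hc
  have h : ∃ (w : ℤ × ℤ) (e : ℤ), R4c c.1 c.2 w.1 w.2 e := by
    obtain ⟨u, v, s, hR⟩ := ex4c hD hT
    exact ⟨(u, v), s, hR⟩
  unfold F4c
  rw [dif_pos h]
  exact h.choose_spec

theorem par4c : PAR4c := by
  refine ⟨500000, F4c, fun H => ⟨?_, ?_⟩⟩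
  · intro c hc c' hc' hcc
    obtain ⟨e, hR⟩ := F4c_spec hc
    obtain ⟨e', hR'⟩ := F4c_spec hc'
    rw [← hcc] at hR'
    have h1 : e = e' := by have := hR.e3; have := hR'.e3; omega
    subst h1
    exact Prod.ext (by rw [hR.ea, hR'.ea]) (by rw [hR.eb, hR'.eb])
  · intro c hc
    obtain ⟨e, hR⟩ := F4c_spec hc
    obtain ⟨-, h1, h2, -⟩ := memCc hc
    obtain ⟨h3, h4⟩ := bd4c hR h1 h2
    exact ⟨hR.s0, hR.b0, hR.ne, h3, h4, fin4c hR⟩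

end Pool.Agent.L0h80.T8
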